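import Mathlib

set_option autoImplicit false
set_option linter.unusedSectionVars false

namespace Pool.Agent.H399R3

open Set Filter Topology Metric
open scoped NNReal

/-- the Newtonian attraction kernel is Lipschitz away from the origin -/
lemma kernel_lip {E : Type*} [NormedAddCommGroup E] [NormedSpace ℝ E] {δ : ℝ} (hδ : 0 < δ)
    {y z : E} (hy : δ ≤ ‖y‖) (hz : δ ≤ ‖z‖) (m : ℝ) :
    ‖(m / ‖y‖ ^ 3) • y - (m / ‖z‖ ^ 3) • z‖ ≤ |m| * (4 / δ ^ 3) * ‖y - z‖ := by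
  set a := ‖y‖ with ha
  set b := ‖z‖ with hb
  have ha0 : 0 < a := lt_of_lt_of_le hδ hy
  have hb0 : 0 < b := lt_of_lt_of_le hδ hz
  have hab : |a - b| ≤ ‖y - z‖ := abs_norm_sub_norm_le y z
  have h1 : (m / a ^ 3) • y - (m / b ^ 3) • z
      = (m / a ^ 3) • (y - z) + (m * (1 / a ^ 3 - 1 / b ^ 3)) • z := by
    rw [smul_sub, mul_sub, sub_smul]
    have h2 : m * (1 / a ^ 3) = m / a ^ 3 := by ring
    have h3 : m * (1 / b ^ 3) = m / b ^ 3 := by ring
    rw [h2, h3]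
    abel
  rw [h1]
  refine (norm_add_le _ _).trans ?_
  rw [norm_smul, norm_smul, Real.norm_eq_abs, Real.norm_eq_abs, abs_div, abs_mul,
    abs_of_pos (by positivity : 0 < a ^ 3), ← hb]
  have e1 : |m| / a ^ 3 * ‖y - z‖ ≤ |m| * (1 / δ ^ 3) * ‖y - z‖ := by
    apply mul_le_mul_of_nonneg_right _ (norm_nonneg _)
    rw [div_eq_mul_one_div]
    apply mul_le_mul_of_nonneg_left _ (abs_nonneg _)
    apply one_div_le_one_div_of_le (by positivity)
    gcongr
  have e2 : |1 / a ^ 3 - 1 / b ^ 3| * b ≤ (3 / δ ^ 3) * |a - b| := by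
    have h2 : 1 / a ^ 3 - 1 / b ^ 3 = (b - a) * ((a ^ 2 + a * b + b ^ 2) / (a ^ 3 * b ^ 3)) := by
      field_simp
      ring
    rw [h2, abs_mul, abs_of_pos (by positivity : 0 < (a ^ 2 + a * b + b ^ 2) / (a ^ 3 * b ^ 3)),
      abs_sub_comm b a]
    have h3 : (a ^ 2 + a * b + b ^ 2) / (a ^ 3 * b ^ 3) * b
        = 1 / (a * b ^ 2) + 1 / (a ^ 2 * b) + 1 / a ^ 3 := by
      field_simp
    have h4 : 1 / (a * b ^ 2) ≤ 1 / δ ^ 3 := by
      apply one_div_le_one_div_of_le (by positivity)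
      calc δ ^ 3 = δ * δ ^ 2 := by ring
        _ ≤ a * b ^ 2 := by gcongr
    have h5 : 1 / (a ^ 2 * b) ≤ 1 / δ ^ 3 := by
      apply one_div_le_one_div_of_le (by positivity)
      calc δ ^ 3 = δ ^ 2 * δ := by ring
        _ ≤ a ^ 2 * b := by gcongr
    have h6 : 1 / a ^ 3 ≤ 1 / δ ^ 3 := by
      apply one_div_le_one_div_of_le (by positivity)
      gcongr
    calc |a - b| * ((a ^ 2 + a * b + b ^ 2) / (a ^ 3 * b ^ 3)) * b
        = |a - b| * ((a ^ 2 + a * b + b ^ 2) / (a ^ 3 * b ^ 3) * b) := by ring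
      _ ≤ |a - b| * (3 / δ ^ 3) := by
          apply mul_le_mul_of_nonneg_left _ (abs_nonneg _)
          rw [h3]
          have : 3 / δ ^ 3 = 1 / δ ^ 3 + 1 / δ ^ 3 + 1 / δ ^ 3 := by ring
          linarith
      _ = (3 / δ ^ 3) * |a - b| := by ring
  calc |m| / a ^ 3 * ‖y - z‖ + |m| * |1 / a ^ 3 - 1 / b ^ 3| * b
      ≤ |m| * (1 / δ ^ 3) * ‖y - z‖ + |m| * ((3 / δ ^ 3) * ‖y - z‖) := by
        apply add_le_add e1
        rw [mul_assoc]
        apply mul_le_mul_of_nonneg_left _ (abs_nonneg _)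
        exact e2.trans (mul_le_mul_of_nonneg_left hab (by positivity))
    _ = |m| * (4 / δ ^ 3) * ‖y - z‖ := by ring

variable {N : ℕ} {E : Type*} [NormedAddCommGroup E] [NormedSpace ℝ E]

/-- gravitational acceleration -/
noncomputable def acc (m : Fin N → ℝ) (x : Fin N → E) : Fin N → E :=
  fun i => ∑ j ∈ Finset.univ.erase i, (m j / ‖x j - x i‖ ^ 3) • (x j - x i)

lemma acc_lip (m : Fin N → ℝ) {δ : ℝ} (hδ : 0 < δ) {x y : Fin N → E}
    (hx : ∀ i j, i ≠ j → δ ≤ ‖x j - x i‖) (hy : ∀ i j, i ≠ j → δ ≤ ‖y j - y i‖) :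
    ‖acc m x - acc m y‖ ≤ (∑ j, |m j|) * (8 / δ ^ 3) * ‖x - y‖ := by
  have hS : 0 ≤ ∑ j, |m j| := Finset.sum_nonneg (fun _ _ => abs_nonneg _)
  rw [pi_norm_le_iff_of_nonneg (by positivity)]
  intro i
  simp only [acc, Pi.sub_apply]
  rw [← Finset.sum_sub_distrib]
  refine (norm_sum_le _ _).trans ?_
  have h1 : ∀ j ∈ Finset.univ.erase i, ‖(m j / ‖x j - x i‖ ^ 3) • (x j - x i) -
      (m j / ‖y j - y i‖ ^ 3) • (y j - y i)‖ ≤ |m j| * ((8 / δ ^ 3) * ‖x - y‖) := by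
    intro j hj
    have hij : i ≠ j := (Finset.ne_of_mem_erase hj).symm
    refine (kernel_lip hδ (hx i j hij) (hy i j hij) (m j)).trans ?_
    have h2 : ‖(x j - x i) - (y j - y i)‖ ≤ 2 * ‖x - y‖ := by
      have h3 : (x j - x i) - (y j - y i) = (x - y) j - (x - y) i := by
        simp only [Pi.sub_apply]; abel
      rw [h3]
      refine (norm_sub_le _ _).trans ?_
      have := norm_le_pi_norm (x - y) j
      have := norm_le_pi_norm (x - y) i
      linarith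
    calc |m j| * (4 / δ ^ 3) * ‖x j - x i - (y j - y i)‖
        ≤ |m j| * (4 / δ ^ 3) * (2 * ‖x - y‖) :=
          mul_le_mul_of_nonneg_left h2 (by positivity)
      _ = |m j| * ((8 / δ ^ 3) * ‖x - y‖) := by ring
  refine (Finset.sum_le_sum h1).trans ?_
  rw [← Finset.sum_mul, mul_assoc]
  apply mul_le_mul_of_nonneg_right _ (by positivity)
  exact Finset.sum_le_sum_of_subset_of_nonneg (Finset.erase_subset _ _)
    (fun _ _ _ => abs_nonneg _)

lemma exists_sep {γ : ℝ → Fin N → E} (hc : Continuous γ) (hγ : ∀ t i j, i ≠ j → γ t i ≠ γ t j)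
    (T : ℝ) : ∃ δ > 0, ∀ t ∈ Icc (-T) T, ∀ i j, i ≠ j → δ ≤ ‖γ t j - γ t i‖ := by
  have h1 : ∀ q : Fin N × Fin N, ∃ δ > 0, ∀ t ∈ Icc (-T) T, q.1 ≠ q.2 → δ ≤ ‖γ t q.2 - γ t q.1‖ := by
    intro q
    by_cases hq : q.1 ≠ q.2
    · rcases (Icc (-T) T).eq_empty_or_nonempty with he | hne
      · exact ⟨1, one_pos, fun t ht => by rw [he] at ht; exact absurd ht (notMem_empty _)⟩
      · have hcq : ContinuousOn (fun t => ‖γ t q.2 - γ t q.1‖) (Icc (-T) T) := by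
          apply Continuous.continuousOn
          exact (((continuous_apply q.2).comp hc).sub ((continuous_apply q.1).comp hc)).norm
        obtain ⟨t0, ht0, hmin⟩ := isCompact_Icc.exists_isMinOn hne hcq
        refine ⟨‖γ t0 q.2 - γ t0 q.1‖, ?_, fun t ht _ => hmin ht⟩
        rw [gt_iff_lt, norm_pos_iff, sub_ne_zero]
        exact (hγ t0 q.1 q.2 hq).symm
    · exact ⟨1, one_pos, fun t _ h => absurd h hq⟩
  choose d hd0 hd using h1
  by_cases hN : Nonempty (Fin N × Fin N)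
  · obtain ⟨q0, -, hq0⟩ := Finset.exists_min_image Finset.univ d Finset.univ_nonempty
    exact ⟨d q0, hd0 q0, fun t ht i j hij =>
      (hq0 (i, j) (Finset.mem_univ _)).trans (hd (i, j) t ht hij)⟩
  · refine ⟨1, one_pos, fun t _ i j _ => absurd ⟨(i, j)⟩ hN⟩

/-- uniqueness of collision-free Newtonian motions -/
theorem nbody_unique (m : Fin N → ℝ) {γ γ' η η' : ℝ → Fin N → E}
    (h1 : ∀ t i j, i ≠ j → γ t i ≠ γ t j) (h2 : ∀ t, HasDerivAt γ (γ' t) t)
    (h3 : ∀ t, HasDerivAt γ' (acc m (γ t)) t)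
    (k1 : ∀ t i j, i ≠ j → η t i ≠ η t j) (k2 : ∀ t, HasDerivAt η (η' t) t)
    (k3 : ∀ t, HasDerivAt η' (acc m (η t)) t) (h0 : γ 0 = η 0) (h0' : γ' 0 = η' 0) :
    ∀ t, γ t = η t ∧ γ' t = η' t := by
  intro t
  set T := |t| + 1 with hT
  have hTpos : 0 < T := by positivity
  have cγ : Continuous γ := continuous_iff_continuousAt.2 (fun t => (h2 t).continuousAt)
  have cη : Continuous η := continuous_iff_continuousAt.2 (fun t => (k2 t).continuousAt)
  obtain ⟨δ1, hδ1, hs1⟩ := exists_sep cγ h1 T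
  obtain ⟨δ2, hδ2, hs2⟩ := exists_sep cη k1 T
  set δ := min δ1 δ2 with hδdef
  have hδ : 0 < δ := lt_min hδ1 hδ2
  set v : ℝ → (Fin N → E) × (Fin N → E) → (Fin N → E) × (Fin N → E) :=
    fun _ x => (x.2, acc m x.1) with hv
  set s : ℝ → Set ((Fin N → E) × (Fin N → E)) := fun _ => {x | ∀ i j, i ≠ j → δ ≤ ‖x.1 j - x.1 i‖}
  have hS : 0 ≤ ∑ j, |m j| := Finset.sum_nonneg (fun _ _ => abs_nonneg _)
  set K : ℝ≥0 := ⟨1 + (∑ j, |m j|) * (8 / δ ^ 3), by positivity⟩ with hK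
  have hlip : ∀ t ∈ Ioo (-T) T, LipschitzOnWith K (v t) (s t) := by
    intro t _
    apply LipschitzOnWith.of_dist_le_mul
    intro x hx y hy
    rw [dist_eq_norm, dist_eq_norm]
    have e1 : ‖x.1 - y.1‖ ≤ ‖x - y‖ := norm_fst_le (x - y)
    have e2 : ‖x.2 - y.2‖ ≤ ‖x - y‖ := norm_snd_le (x - y)
    have e3 := acc_lip m hδ hx hy
    have hKv : (K : ℝ) = 1 + (∑ j, |m j|) * (8 / δ ^ 3) := rfl
    have hp : 0 ≤ (∑ j, |m j|) * (8 / δ ^ 3) := by positivity
    have e4 : (v t x - v t y) = (x.2 - y.2, acc m x.1 - acc m y.1) := rfl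
    rw [e4, Prod.norm_def, hKv]
    apply max_le
    · simp only
      have := norm_nonneg (x - y)
      nlinarith
    · simp only
      calc ‖acc m x.1 - acc m y.1‖ ≤ (∑ j, |m j|) * (8 / δ ^ 3) * ‖x.1 - y.1‖ := e3
        _ ≤ (∑ j, |m j|) * (8 / δ ^ 3) * ‖x - y‖ := mul_le_mul_of_nonneg_left e1 hp
        _ ≤ _ := by
          have := norm_nonneg (x - y)
          nlinarith
  have ht : t ∈ Ioo (-T) T := by
    have := neg_abs_le t
    have := le_abs_self t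
    constructor <;> linarith
  have h0T : (0:ℝ) ∈ Ioo (-T) T := ⟨by linarith, hTpos⟩
  have := ODE_solution_unique_of_mem_Ioo (v := v) (s := s) (K := K) (a := -T) (b := T) (t₀ := 0)
    (f := fun t => (γ t, γ' t)) (g := fun t => (η t, η' t)) hlip h0T
    (fun σ hσ => ⟨(h2 σ).prodMk (h3 σ), fun i j hij =>
      (min_le_left _ _).trans (hs1 σ ⟨hσ.1.le, hσ.2.le⟩ i j hij)⟩)
    (fun σ hσ => ⟨(k2 σ).prodMk (k3 σ), fun i j hij =>
      (min_le_right _ _).trans (hs2 σ ⟨hσ.1.le, hσ.2.le⟩ i j hij)⟩)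
    (by simp only [h0, h0']) ht
  exact ⟨congrArg Prod.fst this, congrArg Prod.snd this⟩

end Pool.Agent.H399R3
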