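import Pool.Agent.Helper981.Flow

set_option autoImplicit false

namespace Pool.Agent.H399R3.Shape

open Set Filter Topology

/-- smooth positive modification of the identity -/
noncomputable def cc (s : ℝ) : ℝ := 1 + (s - 1) * Real.smoothTransition (2 * s - 1)

lemma cc_contDiff : ContDiff ℝ 1 cc := by
  unfold cc
  have h : ContDiff ℝ 1 (fun s : ℝ => Real.smoothTransition (2 * s - 1)) :=
    Real.smoothTransition.contDiff.comp (by fun_prop)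
  exact contDiff_const.add ((contDiff_id.sub contDiff_const).mul h)

lemma cc_of_ge {s : ℝ} (h : 1 ≤ s) : cc s = s := by
  unfold cc
  rw [Real.smoothTransition.one_of_one_le (by linarith)]
  ring

lemma cc_ge (s : ℝ) : 1 / 2 ≤ cc s := by
  unfold cc
  rcases le_total s (1/2) with h | h
  · rw [Real.smoothTransition.zero_of_nonpos (by linarith)]
    norm_num
  · have h1 := Real.smoothTransition.nonneg (2 * s - 1)
    have h2 := Real.smoothTransition.le_one (2 * s - 1)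
    nlinarith

noncomputable def Af (x : Fin 6 → ℝ) : ℝ :=
  (1 / 4) / (√(cc (x 0 ^ 2 + x 1 ^ 2))) ^ 3 + 1 / (√(cc (x 0 ^ 2 + x 1 ^ 2) + x 2 ^ 2)) ^ 3

noncomputable def Bf (x : Fin 6 → ℝ) : ℝ :=
  3 / (√(cc (x 0 ^ 2 + x 1 ^ 2) + x 2 ^ 2)) ^ 3

noncomputable def F (x : Fin 6 → ℝ) : Fin 6 → ℝ :=
  ![x 3, x 4, x 5, -(Af x * x 0), -(Af x * x 1), -(Bf x * x 2)]

lemma coord_contDiff (i : Fin 6) : ContDiff ℝ 1 (fun x : Fin 6 → ℝ => x i) := by
  fun_prop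

lemma ccs_contDiff : ContDiff ℝ 1 (fun x : Fin 6 → ℝ => cc (x 0 ^ 2 + x 1 ^ 2)) :=
  cc_contDiff.comp (by fun_prop)

lemma sq1_contDiff : ContDiff ℝ 1 (fun x : Fin 6 → ℝ => √(cc (x 0 ^ 2 + x 1 ^ 2))) := by
  apply ccs_contDiff.sqrt
  intro x
  have := cc_ge (x 0 ^ 2 + x 1 ^ 2)
  linarith

lemma sq2_contDiff : ContDiff ℝ 1 (fun x : Fin 6 → ℝ => √(cc (x 0 ^ 2 + x 1 ^ 2) + x 2 ^ 2)) := by
  apply ContDiff.sqrt
  · exact ccs_contDiff.add (by fun_prop)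
  · intro x
    have := cc_ge (x 0 ^ 2 + x 1 ^ 2)
    have := sq_nonneg (x 2)
    linarith

lemma half_le_sq1 (x : Fin 6 → ℝ) : 1 / 2 ≤ √(cc (x 0 ^ 2 + x 1 ^ 2)) := by
  apply Real.le_sqrt_of_sq_le
  have := cc_ge (x 0 ^ 2 + x 1 ^ 2)
  linarith

lemma half_le_sq2 (x : Fin 6 → ℝ) : 1 / 2 ≤ √(cc (x 0 ^ 2 + x 1 ^ 2) + x 2 ^ 2) := by
  apply Real.le_sqrt_of_sq_le
  have := cc_ge (x 0 ^ 2 + x 1 ^ 2)
  have := sq_nonneg (x 2)
  linarith

lemma Af_contDiff : ContDiff ℝ 1 Af := by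
  unfold Af
  apply ContDiff.add
  · apply ContDiff.div contDiff_const (sq1_contDiff.pow 3)
    intro x
    have := half_le_sq1 x
    positivity
  · apply ContDiff.div contDiff_const (sq2_contDiff.pow 3)
    intro x
    have := half_le_sq2 x
    positivity

lemma Bf_contDiff : ContDiff ℝ 1 Bf := by
  unfold Bf
  apply ContDiff.div contDiff_const (sq2_contDiff.pow 3)
  intro x
  have := half_le_sq2 x
  positivity

lemma F_contDiff : ContDiff ℝ 1 F := by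
  unfold F
  rw [contDiff_pi]
  intro i
  fin_cases i
  · exact coord_contDiff 3
  · exact coord_contDiff 4
  · exact coord_contDiff 5
  · exact (Af_contDiff.mul (coord_contDiff 0)).neg
  · exact (Af_contDiff.mul (coord_contDiff 1)).neg
  · exact (Bf_contDiff.mul (coord_contDiff 2)).neg

lemma inv_cube_le {r : ℝ} (h : 1 / 2 ≤ r) : 1 / r ^ 3 ≤ 8 := by
  rw [div_le_iff₀ (by positivity)]
  have : (1/2:ℝ)^3 ≤ r ^ 3 := by gcongr
  linarith

lemma Af_nonneg (x : Fin 6 → ℝ) : 0 ≤ Af x := by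
  unfold Af
  positivity

lemma Bf_nonneg (x : Fin 6 → ℝ) : 0 ≤ Bf x := by
  unfold Bf
  positivity

lemma Af_le (x : Fin 6 → ℝ) : Af x ≤ 24 := by
  unfold Af
  have h1 := inv_cube_le (half_le_sq1 x)
  have h2 := inv_cube_le (half_le_sq2 x)
  have h3 : (1 / 4) / (√(cc (x 0 ^ 2 + x 1 ^ 2))) ^ 3 = (1/4) * (1 / (√(cc (x 0 ^ 2 + x 1 ^ 2))) ^ 3) := by
    ring
  rw [h3]
  linarith

lemma Bf_le (x : Fin 6 → ℝ) : Bf x ≤ 24 := by
  unfold Bf
  have h2 := inv_cube_le (half_le_sq2 x)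
  have h3 : 3 / (√(cc (x 0 ^ 2 + x 1 ^ 2) + x 2 ^ 2)) ^ 3
      = 3 * (1 / (√(cc (x 0 ^ 2 + x 1 ^ 2) + x 2 ^ 2)) ^ 3) := by
    ring
  rw [h3]
  linarith

lemma F_bound (x : Fin 6 → ℝ) : ‖F x‖ ≤ 24 * (1 + ‖x‖) := by
  have h0 : 0 ≤ ‖x‖ := norm_nonneg x
  rw [pi_norm_le_iff_of_nonneg (by positivity)]
  have hc : ∀ j, ‖x j‖ ≤ ‖x‖ := fun j => norm_le_pi_norm x j
  have ha := Af_nonneg x
  have ha' := Af_le x
  have hb := Bf_nonneg x
  have hb' := Bf_le x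
  have e1 : ∀ j, ‖x j‖ ≤ 24 * (1 + ‖x‖) := fun j => by
    have := hc j
    linarith
  have e2 : ∀ (a : ℝ) j, 0 ≤ a → a ≤ 24 → ‖-(a * x j)‖ ≤ 24 * (1 + ‖x‖) := fun a j h1 h2 => by
    rw [norm_neg, norm_mul, Real.norm_of_nonneg h1]
    have := hc j
    have h3 := norm_nonneg (x j)
    nlinarith
  intro i
  fin_cases i
  · exact e1 3
  · exact e1 4
  · exact e1 5
  · exact e2 _ 0 ha ha'
  · exact e2 _ 1 ha ha'
  · exact e2 _ 2 hb hb'

end Pool.Agent.H399R3.Shape
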