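import Pool.Agent.H399R3.Shape1

set_option autoImplicit false

namespace Pool.Agent.H399R3.Shape

open Set Filter Topology

lemma le_of_deriv_nonneg {f f' : ℝ → ℝ} {a b : ℝ} (hab : a ≤ b)
    (h : ∀ t ∈ Icc a b, HasDerivAt f (f' t) t) (h' : ∀ t ∈ Icc a b, 0 ≤ f' t) : f a ≤ f b := by
  have hm : MonotoneOn f (Icc a b) := by
    apply monotoneOn_of_deriv_nonneg (convex_Icc a b)
    · intro t ht
      exact (h t ht).continuousAt.continuousWithinAt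
    · intro t ht
      exact (h t (interior_subset ht)).differentiableAt.differentiableWithinAt
    · intro t ht
      rw [(h t (interior_subset ht)).deriv]
      exact h' t (interior_subset ht)
  exact hm ⟨le_rfl, hab⟩ ⟨hab, le_rfl⟩ hab

/-- bootstrap principle -/
lemma boot_nonneg {y y' : ℝ → ℝ} (hy : ∀ t, HasDerivAt y (y' t) t) (h0 : y 0 = 0) {c : ℝ}
    (hc : 0 < c) (H : ∀ t, 0 ≤ t → (∀ τ ∈ Icc 0 t, 0 ≤ y τ) → c ≤ y' t) :
    ∀ t, 0 ≤ t → 0 ≤ y t := by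
  by_contra hcon
  push Not at hcon
  obtain ⟨t1, ht1, hyt1⟩ := hcon
  set S : Set ℝ := {t | 0 ≤ t ∧ y t < 0} with hS
  have hne : S.Nonempty := ⟨t1, ht1, hyt1⟩
  have hbdd : BddBelow S := ⟨0, fun t ht => ht.1⟩
  set t0 := sInf S with ht0
  have ht00 : 0 ≤ t0 := le_csInf hne (fun t ht => ht.1)
  have hcont : ∀ t, ContinuousAt y t := fun t => (hy t).continuousAt
  have hbefore : ∀ τ, 0 ≤ τ → τ < t0 → 0 ≤ y τ := by
    intro τ h1 h2
    by_contra h3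
    push Not at h3
    exact absurd (csInf_le hbdd (⟨h1, h3⟩ : τ ∈ S)) (not_le.2 h2)
  have hat : 0 ≤ y t0 := by
    rcases eq_or_lt_of_le ht00 with h | h
    · rw [← h, h0]
    · by_contra h3
      push Not at h3
      have : ∀ᶠ τ in 𝓝 t0, y τ < 0 := (hcont t0).eventually (gt_mem_nhds h3)
      have h4 : ∀ᶠ τ in 𝓝[<] t0, y τ < 0 := nhdsWithin_le_nhds this
      have h5 : ∀ᶠ τ in 𝓝[<] t0, τ ∈ Ioo 0 t0 := Ioo_mem_nhdsLT h
      obtain ⟨τ, hτ1, hτ2⟩ := (h4.and h5).exists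
      exact absurd hτ1 (not_lt.2 (hbefore τ hτ2.1.le hτ2.2))
  have hall : ∀ τ ∈ Icc 0 t0, 0 ≤ y τ := by
    intro τ hτ
    rcases eq_or_lt_of_le hτ.2 with h | h
    · rw [h]; exact hat
    · exact hbefore τ hτ.1 h
  have hd : 0 < y' t0 := lt_of_lt_of_le hc (H t0 ht00 hall)
  -- y > y t0 to the right
  have hslope := (hasDerivAt_iff_tendsto_slope.1 (hy t0))
  have hev : ∀ᶠ τ in 𝓝[≠] t0, 0 < slope y t0 τ := hslope.eventually (lt_mem_nhds hd)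
  have hev2 : ∀ᶠ τ in 𝓝[>] t0, 0 < slope y t0 τ :=
    hev.filter_mono (nhdsWithin_mono _ (fun x hx => ne_of_gt hx))
  obtain ⟨u, hu, hu2⟩ := mem_nhdsGT_iff_exists_Ioo_subset.1 hev2
  have hright : ∀ τ ∈ Ioo t0 u, 0 < y τ := by
    intro τ hτ
    have h1 : 0 < slope y t0 τ := hu2 hτ
    rw [slope_def_field] at h1
    have h2 : 0 < τ - t0 := by linarith [hτ.1]
    have h3 : 0 < y τ - y t0 := by
      rcases div_pos_iff.1 h1 with h | h
      · exact h.1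
      · linarith [h.2]
    linarith
  obtain ⟨τ, hτS, hτu⟩ := exists_lt_of_csInf_lt hne (show sInf S < u from hu)
  have h1 : t0 ≤ τ := csInf_le hbdd hτS
  rcases eq_or_lt_of_le h1 with h | h
  · exact absurd hτS.2 (not_lt.2 (h ▸ hat))
  · exact absurd hτS.2 (not_lt.2 (hright τ ⟨h, hτu⟩).le)

lemma boot {y y' : ℝ → ℝ} (hy : ∀ t, HasDerivAt y (y' t) t) (h0 : y 0 = 0) {c : ℝ}
    (hc : 0 < c) (H : ∀ t, 0 ≤ t → (∀ τ ∈ Icc 0 t, 0 ≤ y τ) → c ≤ y' t) :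
    ∀ t, 0 ≤ t → c * t ≤ y t := by
  have h1 := boot_nonneg hy h0 hc H
  intro t ht
  have h2 := le_of_deriv_nonneg (f := fun t => y t - c * t) (f' := fun t => y' t - c) ht
    (fun τ _ => by
      exact ((hy τ).sub ((hasDerivAt_id τ).const_mul c)).congr_deriv (by simp))
    (fun τ hτ => by
      have := H τ hτ.1 (fun σ hσ => h1 σ hσ.1)
      linarith)
  simp only [h0, mul_zero, sub_zero] at h2
  linarith

/-- the initial state -/
noncomputable def ini (p e : ℝ) : Fin 6 → ℝ := ![1, 0, 0, 0, p, e]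

structure Sol (p e : ℝ) (α : ℝ → Fin 6 → ℝ) : Prop where
  init : α 0 = ini p e
  ode : ∀ t, HasDerivAt α (F (α t)) t

variable {p e : ℝ} {α : ℝ → Fin 6 → ℝ}

lemma Sol.d0 (h : Sol p e α) (t : ℝ) : HasDerivAt (fun t => α t 0) (α t 3) t :=
  (hasDerivAt_pi.1 (h.ode t)) 0
lemma Sol.d1 (h : Sol p e α) (t : ℝ) : HasDerivAt (fun t => α t 1) (α t 4) t :=
  (hasDerivAt_pi.1 (h.ode t)) 1
lemma Sol.d2 (h : Sol p e α) (t : ℝ) : HasDerivAt (fun t => α t 2) (α t 5) t :=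
  (hasDerivAt_pi.1 (h.ode t)) 2
lemma Sol.d3 (h : Sol p e α) (t : ℝ) : HasDerivAt (fun t => α t 3) (-(Af (α t) * α t 0)) t :=
  (hasDerivAt_pi.1 (h.ode t)) 3
lemma Sol.d4 (h : Sol p e α) (t : ℝ) : HasDerivAt (fun t => α t 4) (-(Af (α t) * α t 1)) t :=
  (hasDerivAt_pi.1 (h.ode t)) 4
lemma Sol.d5 (h : Sol p e α) (t : ℝ) : HasDerivAt (fun t => α t 5) (-(Bf (α t) * α t 2)) t :=
  (hasDerivAt_pi.1 (h.ode t)) 5

lemma Sol.i0 (h : Sol p e α) : α 0 0 = 1 := by rw [h.init]; rfl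
lemma Sol.i1 (h : Sol p e α) : α 0 1 = 0 := by rw [h.init]; rfl
lemma Sol.i2 (h : Sol p e α) : α 0 2 = 0 := by rw [h.init]; rfl
lemma Sol.i3 (h : Sol p e α) : α 0 3 = 0 := by rw [h.init]; rfl
lemma Sol.i4 (h : Sol p e α) : α 0 4 = p := by rw [h.init]; rfl
lemma Sol.i5 (h : Sol p e α) : α 0 5 = e := by rw [h.init]; rfl

/-- squared planar distance -/
def ss (x : Fin 6 → ℝ) : ℝ := x 0 ^ 2 + x 1 ^ 2

lemma Af_of_ge {x : Fin 6 → ℝ} (h : 1 ≤ ss x) :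
    Af x = (1 / 4) / (√(ss x)) ^ 3 + 1 / (√(ss x + x 2 ^ 2)) ^ 3 := by
  unfold Af
  unfold ss at h ⊢
  rw [cc_of_ge h]

lemma Bf_of_ge {x : Fin 6 → ℝ} (h : 1 ≤ ss x) :
    Bf x = 3 / (√(ss x + x 2 ^ 2)) ^ 3 := by
  unfold Bf
  unfold ss at h ⊢
  rw [cc_of_ge h]

lemma Sol.dss (h : Sol p e α) (t : ℝ) :
    HasDerivAt (fun t => ss (α t)) (2 * (α t 0 * α t 3 + α t 1 * α t 4)) t := by
  have h1 := ((h.d0 t).pow 2).add ((h.d1 t).pow 2)
  refine h1.congr_deriv ?_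
  simp only [Nat.cast_ofNat, Nat.add_one_sub_one, pow_one]
  ring

lemma Sol.ddss (h : Sol p e α) (t : ℝ) :
    HasDerivAt (fun t => 2 * (α t 0 * α t 3 + α t 1 * α t 4))
      (2 * (α t 3 ^ 2 + α t 4 ^ 2 - Af (α t) * ss (α t))) t := by
  have h1 := (((h.d0 t).mul (h.d3 t)).add ((h.d1 t).mul (h.d4 t))).const_mul 2
  refine h1.congr_deriv ?_
  unfold ss
  ring

lemma sqrt_le_sqrt_add (x : Fin 6 → ℝ) : √(ss x) ≤ √(ss x + x 2 ^ 2) :=
  Real.sqrt_le_sqrt (by nlinarith [sq_nonneg (x 2)])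

lemma one_le_sqrt {x : Fin 6 → ℝ} (h : 1 ≤ ss x) : 1 ≤ √(ss x) := by
  rw [Real.one_le_sqrt]; exact h

lemma Af_mul_le {x : Fin 6 → ℝ} (h : 1 ≤ ss x) : Af x * ss x ≤ (5 / 4) / √(ss x) := by
  have h1 := one_le_sqrt h
  have h2 := sqrt_le_sqrt_add x
  rw [Af_of_ge h]
  set r := √(ss x) with hr
  have hr2 : ss x = r ^ 2 := by rw [hr, Real.sq_sqrt]; linarith
  set ρ := √(ss x + x 2 ^ 2) with hρ
  have h3 : 1 / ρ ^ 3 ≤ 1 / r ^ 3 := by
    apply one_div_le_one_div_of_le (by positivity)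
    gcongr
  have h4 : (1 / 4) / r ^ 3 + 1 / ρ ^ 3 ≤ (5 / 4) / r ^ 3 := by
    calc (1 / 4) / r ^ 3 + 1 / ρ ^ 3 ≤ (1 / 4) / r ^ 3 + 1 / r ^ 3 := by linarith
      _ = (5 / 4) / r ^ 3 := by ring
  calc ((1 / 4) / r ^ 3 + 1 / ρ ^ 3) * ss x ≤ (5 / 4) / r ^ 3 * ss x := by
        apply mul_le_mul_of_nonneg_right h4
        linarith
    _ = (5 / 4) / r := by
        rw [hr2]
        field_simp

/-- planar Kepler-like energy -/
noncomputable def hh (x : Fin 6 → ℝ) : ℝ := (x 3 ^ 2 + x 4 ^ 2) / 2 - (5 / 4) / √(ss x)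

lemma Sol.dhh (h : Sol p e α) {t : ℝ} (ht : 1 ≤ ss (α t)) :
    HasDerivAt (fun t => hh (α t))
      ((α t 0 * α t 3 + α t 1 * α t 4) *
        (1 / (√(ss (α t))) ^ 3 - 1 / (√(ss (α t) + α t 2 ^ 2)) ^ 3)) t := by
  have hs := one_le_sqrt ht
  have h1 := (((h.d3 t).pow 2).add ((h.d4 t).pow 2)).div_const 2
  have h2 := ((h.dss t).sqrt (by positivity)).inv (by positivity)
  have h3 := h1.sub (h2.const_mul (5 / 4))
  have h4 : (fun t => hh (α t)) = (fun t => (α t 3 ^ 2 + α t 4 ^ 2) / 2) -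
      fun t => (5 / 4) * (√(ss (α t)))⁻¹ := by
    funext s
    simp [hh, div_eq_mul_inv]
  rw [h4]
  refine h3.congr_deriv ?_
  rw [Af_of_ge ht]
  set r := √(ss (α t)) with hr
  set ρ := √(ss (α t) + α t 2 ^ 2) with hρ
  simp only [Nat.cast_ofNat, Nat.add_one_sub_one, pow_one]
  have hρ0 : 0 < ρ := lt_of_lt_of_le (by linarith) (sqrt_le_sqrt_add (α t))
  field_simp
  ring

/-- `a = p^2 - 5/2`, twice the planar energy -/
theorem Sol.main_bound (h : Sol p e α) (hp : 5 / 2 < p ^ 2) :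
    ∀ t, 0 ≤ t → 2 * (p ^ 2 - 5 / 2) * t ≤ 2 * (α t 0 * α t 3 + α t 1 * α t 4) ∧
      1 + (p ^ 2 - 5 / 2) * t ^ 2 ≤ ss (α t) ∧ (p ^ 2 - 5 / 2) / 2 ≤ hh (α t) := by
  have hss0 : ss (α 0) = 1 := by
    unfold ss
    rw [h.i0, h.i1]; norm_num
  have hhh0 : hh (α 0) = (p ^ 2 - 5 / 2) / 2 := by
    unfold hh
    rw [hss0, h.i3, h.i4, Real.sqrt_one]; ring
  -- history lemma
  have hist : ∀ t, 0 ≤ t → (∀ τ ∈ Icc 0 t, 0 ≤ 2 * (α τ 0 * α τ 3 + α τ 1 * α τ 4)) →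
      (∀ τ ∈ Icc 0 t, 1 ≤ ss (α τ)) ∧ (p ^ 2 - 5 / 2) / 2 ≤ hh (α t) := by
    intro t ht hy
    have h1 : ∀ τ ∈ Icc 0 t, 1 ≤ ss (α τ) := by
      intro τ hτ
      have := le_of_deriv_nonneg (f := fun t => ss (α t)) hτ.1 (fun σ _ => h.dss σ)
        (fun σ hσ => hy σ ⟨hσ.1, hσ.2.trans hτ.2⟩)
      simp only [hss0] at this
      exact this
    refine ⟨h1, ?_⟩
    have := le_of_deriv_nonneg (f := fun t => hh (α t)) ht
      (fun σ hσ => h.dhh (h1 σ hσ)) (fun σ hσ => by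
        apply mul_nonneg
        · have := hy σ hσ
          linarith
        · have h2 := one_le_sqrt (h1 σ hσ)
          have h3 := sqrt_le_sqrt_add (α σ)
          have : 1 / (√(ss (α σ) + α σ 2 ^ 2)) ^ 3 ≤ 1 / (√(ss (α σ))) ^ 3 := by
            apply one_div_le_one_div_of_le (by positivity)
            gcongr
          linarith)
    simp only [hhh0] at this
    exact this
  have hb := boot (y := fun t => 2 * (α t 0 * α t 3 + α t 1 * α t 4)) (fun t => h.ddss t)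
    (by simp [h.i0, h.i1, h.i3]) (c := 2 * (p ^ 2 - 5 / 2)) (by linarith)
    (fun t ht hy => by
      obtain ⟨h1, h2⟩ := hist t ht hy
      have h3 := h1 t ⟨ht, le_rfl⟩
      have h4 := Af_mul_le h3
      unfold hh at h2
      have h5 : 0 ≤ (5 / 4) / √(ss (α t)) := by positivity
      linarith)
  have hnn : ∀ t, 0 ≤ t → 0 ≤ 2 * (α t 0 * α t 3 + α t 1 * α t 4) := fun t ht => by
    have := hb t ht
    have h2 : 0 ≤ 2 * (p ^ 2 - 5 / 2) * t := by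
      apply mul_nonneg _ ht
      linarith
    exact h2.trans this
  intro t ht
  refine ⟨hb t ht, ?_, (hist t ht (fun τ hτ => hnn τ hτ.1)).2⟩
  have := le_of_deriv_nonneg (f := fun t => ss (α t) - (1 + (p ^ 2 - 5 / 2) * t ^ 2))
    (f' := fun t => 2 * (α t 0 * α t 3 + α t 1 * α t 4) - 2 * (p ^ 2 - 5 / 2) * t) ht
    (fun σ _ => by
      have h1 := (h.dss σ).sub ((((hasDerivAt_id σ).pow 2).const_mul (p ^ 2 - 5 / 2)).const_add 1)
      refine h1.congr_deriv ?_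
      simp
      ring)
    (fun σ hσ => by
      have := hb σ hσ.1
      linarith)
  simp only [hss0] at this
  linarith

end Pool.Agent.H399R3.Shape
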