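import Pool.Agent.H399R3.Shape2

set_option autoImplicit false

namespace Pool.Agent.H399R3.Shape

open Set Filter Topology

variable {p e : ℝ} {α : ℝ → Fin 6 → ℝ}

/-- total energy -/
noncomputable def En (x : Fin 6 → ℝ) : ℝ :=
  x 3 ^ 2 + x 4 ^ 2 + x 5 ^ 2 / 3 - (1 / 2) / √(ss x) - 2 / √(ss x + x 2 ^ 2)

lemma Sol.dEn (h : Sol p e α) {t : ℝ} (ht : 1 ≤ ss (α t)) :
    HasDerivAt (fun t => En (α t)) 0 t := by
  have hs := one_le_sqrt ht
  have h1 := (((h.d3 t).pow 2).add ((h.d4 t).pow 2)).add (((h.d5 t).pow 2).div_const 3)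
  have h2 := ((h.dss t).sqrt (by positivity)).inv (by positivity)
  have hpos : 0 < ss (α t) + α t 2 ^ 2 := by positivity
  have h3 := (((h.dss t).add ((h.d2 t).pow 2)).sqrt hpos.ne').inv (Real.sqrt_pos.2 hpos).ne'
  have h4 := (h1.sub (h2.const_mul (1 / 2))).sub (h3.const_mul 2)
  have h5 : (fun t => En (α t)) = ((fun t => α t 3 ^ 2 + α t 4 ^ 2 + α t 5 ^ 2 / 3) -
      fun t => (1 / 2) * (√(ss (α t)))⁻¹) - fun t => 2 * (√(ss (α t) + α t 2 ^ 2))⁻¹ := by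
    funext s
    simp [En, div_eq_mul_inv]
  rw [h5]
  refine h4.congr_deriv ?_
  rw [Af_of_ge ht, Bf_of_ge ht]
  simp only [Pi.add_apply, Pi.pow_apply, Nat.cast_ofNat, Nat.add_one_sub_one, pow_one]
  set r := √(ss (α t)) with hr
  set ρ := √(ss (α t) + α t 2 ^ 2) with hρ
  have hρ0 : 0 < ρ := lt_of_lt_of_le (by linarith) (sqrt_le_sqrt_add (α t))
  field_simp
  ring

lemma eq_of_deriv_zero {f : ℝ → ℝ} {a b : ℝ} (hab : a ≤ b)
    (h : ∀ t ∈ Icc a b, HasDerivAt f 0 t) : f a = f b := by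
  apply le_antisymm
  · exact le_of_deriv_nonneg hab h (fun _ _ => le_rfl)
  · have := le_of_deriv_nonneg (f := fun t => -f t) (f' := fun _ => 0) hab
      (fun t ht => ((h t ht).neg).congr_deriv neg_zero) (fun _ _ => le_rfl)
    linarith

lemma Sol.ss_ge (h : Sol p e α) (hp : 5 / 2 < p ^ 2) {t : ℝ} (ht : 0 ≤ t) : 1 ≤ ss (α t) := by
  have h1 := (h.main_bound hp t ht).2.1
  have h2 : 0 ≤ (p ^ 2 - 5 / 2) * t ^ 2 := by
    apply mul_nonneg
    · linarith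
    · positivity
  linarith

lemma Sol.speed_le (h : Sol p e α) (hp : 5 / 2 < p ^ 2) {t : ℝ} (ht : 0 ≤ t) :
    α t 3 ^ 2 + α t 4 ^ 2 ≤ (p ^ 2 - 5 / 2 + e ^ 2 / 3) + (5 / 2) / √(ss (α t)) := by
  have h1 := eq_of_deriv_zero (f := fun t => En (α t)) ht
    (fun σ hσ => h.dEn (h.ss_ge hp hσ.1))
  have h2 : En (α 0) = p ^ 2 - 5 / 2 + e ^ 2 / 3 := by
    unfold En ss
    rw [h.i0, h.i1, h.i2, h.i3, h.i4, h.i5]
    norm_num
    ring
  simp only [h2] at h1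
  unfold En at h1
  have h3 := one_le_sqrt (h.ss_ge hp ht)
  have h4 := sqrt_le_sqrt_add (α t)
  have h5 : 2 / √(ss (α t) + α t 2 ^ 2) ≤ 2 / √(ss (α t)) := by
    apply div_le_div_of_nonneg_left (by norm_num) (by linarith) h4
  have h6 : (1 / 2) / √(ss (α t)) + 2 / √(ss (α t)) = (5 / 2) / √(ss (α t)) := by ring
  have h7 : 0 ≤ α t 5 ^ 2 / 3 := by positivity
  linarith

lemma Sol.radial_le (h : Sol p e α) (hp : 5 / 2 < p ^ 2) {t : ℝ} (ht : 0 ≤ t) :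
    α t 0 * α t 3 + α t 1 * α t 4 ≤
      √(ss (α t)) * √((p ^ 2 - 5 / 2 + e ^ 2 / 3) + (5 / 2) / √(ss (α t))) := by
  have h1 : (α t 0 * α t 3 + α t 1 * α t 4) ^ 2 ≤ ss (α t) * (α t 3 ^ 2 + α t 4 ^ 2) := by
    unfold ss
    nlinarith [sq_nonneg (α t 0 * α t 4 - α t 1 * α t 3)]
  have h2 := h.speed_le hp ht
  have h3 : 0 ≤ ss (α t) := by linarith [h.ss_ge hp ht]
  rw [← Real.sqrt_mul h3]
  apply Real.le_sqrt_of_sq_le
  exact h1.trans (mul_le_mul_of_nonneg_left h2 h3)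

lemma Sol.r_le (h : Sol p e α) (hp : 5 / 2 < p ^ 2) (hη : p ^ 2 - 5 / 2 + e ^ 2 / 3 ≤ 3 / 2)
    {t : ℝ} (ht : 0 ≤ t) : √(ss (α t)) ≤ 1 + 2 * t := by
  have h0 : √(ss (α 0)) = 1 := by
    unfold ss
    rw [h.i0, h.i1]; norm_num
  have := le_of_deriv_nonneg (f := fun t => (1 + 2 * t) - √(ss (α t)))
    (f' := fun t => 2 - 2 * (α t 0 * α t 3 + α t 1 * α t 4) / (2 * √(ss (α t)))) ht
    (fun σ hσ => by
      have h1 := h.ss_ge hp hσ.1
      have h2 := (((hasDerivAt_id σ).const_mul (2:ℝ)).const_add 1).sub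
        ((h.dss σ).sqrt (by positivity))
      exact h2.congr_deriv (by simp))
    (fun σ hσ => by
      have h1 := h.ss_ge hp hσ.1
      have h2 := one_le_sqrt h1
      have h3 := h.radial_le hp hσ.1
      have h4 : √((p ^ 2 - 5 / 2 + e ^ 2 / 3) + (5 / 2) / √(ss (α σ))) ≤ 2 := by
        rw [Real.sqrt_le_left (by norm_num)]
        have : (5 / 2) / √(ss (α σ)) ≤ 5 / 2 := by
          apply div_le_self (by norm_num) h2
        linarith
      have h5 : α σ 0 * α σ 3 + α σ 1 * α σ 4 ≤ √(ss (α σ)) * 2 :=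
        h3.trans (mul_le_mul_of_nonneg_left h4 (by positivity))
      rw [sub_nonneg, div_le_iff₀ (by positivity)]
      linarith)
  simp only [h0] at this
  linarith

/-- `r^3 ≤ (1 + 12/5 t)^2` as long as `η r ≤ 3/50` -/
lemma Sol.r_cube_le (h : Sol p e α) (hp : 5 / 2 < p ^ 2) {T : ℝ}
    (hη : (p ^ 2 - 5 / 2 + e ^ 2 / 3) * (1 + 2 * T) ≤ 3 / 50)
    {t : ℝ} (ht : 0 ≤ t) (htT : t ≤ T) : √(ss (α t)) ^ 3 ≤ (1 + 12 / 5 * t) ^ 2 := by
  have hη0 : 0 ≤ p ^ 2 - 5 / 2 + e ^ 2 / 3 := by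
    have : 0 ≤ e ^ 2 / 3 := by positivity
    linarith
  have hη1 : p ^ 2 - 5 / 2 + e ^ 2 / 3 ≤ 3 / 2 := by nlinarith
  have h0 : √(√(ss (α 0))) = 1 := by
    unfold ss
    rw [h.i0, h.i1]; norm_num
  have := le_of_deriv_nonneg (f := fun t => (1 + 12 / 5 * t) - √(√(ss (α t))) ^ 3)
    (f' := fun t => 12 / 5 - 3 * √(√(ss (α t))) ^ 2 *
      (2 * (α t 0 * α t 3 + α t 1 * α t 4) / (2 * √(ss (α t))) / (2 * √(√(ss (α t)))))) ht
    (fun σ hσ => by
      have h1 := h.ss_ge hp hσ.1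
      have h1' := one_le_sqrt h1
      have h2 := (((hasDerivAt_id σ).const_mul (12/5:ℝ)).const_add 1).sub
        ((((h.dss σ).sqrt (by positivity)).sqrt (by positivity)).pow 3)
      exact h2.congr_deriv (by simp))
    (fun σ hσ => by
      have h1 := h.ss_ge hp hσ.1
      have h2 := one_le_sqrt h1
      have h3 := h.radial_le hp hσ.1
      have h6 := h.r_le hp hη1 hσ.1
      set r := √(ss (α σ)) with hr
      set q := √r with hq
      have hq1 : 1 ≤ q := by rw [hq, Real.one_le_sqrt]; exact h2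
      have hrq : r = q ^ 2 := by rw [hq, Real.sq_sqrt]; linarith
      -- q * sqrt(η + 2.5/r) ≤ 8/5
      have h4 : q * √((p ^ 2 - 5 / 2 + e ^ 2 / 3) + (5 / 2) / r) ≤ 8 / 5 := by
        rw [hq, ← Real.sqrt_mul (by linarith)]
        rw [Real.sqrt_le_left (by norm_num)]
        have h7 : r * ((p ^ 2 - 5 / 2 + e ^ 2 / 3) + (5 / 2) / r)
            = (p ^ 2 - 5 / 2 + e ^ 2 / 3) * r + 5 / 2 := by
          field_simp
        rw [h7]
        have h8 : (p ^ 2 - 5 / 2 + e ^ 2 / 3) * r ≤ 3 / 50 := by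
          refine le_trans ?_ hη
          apply mul_le_mul_of_nonneg_left _ hη0
          have := hσ.2
          linarith
        norm_num
        linarith
      have h5 : (α σ 0 * α σ 3 + α σ 1 * α σ 4) * q ≤ r * (8 / 5) := by
        calc (α σ 0 * α σ 3 + α σ 1 * α σ 4) * q
            ≤ (r * √((p ^ 2 - 5 / 2 + e ^ 2 / 3) + (5 / 2) / r)) * q :=
              mul_le_mul_of_nonneg_right h3 (by linarith)
          _ = r * (q * √((p ^ 2 - 5 / 2 + e ^ 2 / 3) + (5 / 2) / r)) := by ring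
          _ ≤ r * (8 / 5) := mul_le_mul_of_nonneg_left h4 (by linarith)
      have h9 : 3 * q ^ 2 * (2 * (α σ 0 * α σ 3 + α σ 1 * α σ 4) / (2 * r) / (2 * q))
          = (3 / 2) * ((α σ 0 * α σ 3 + α σ 1 * α σ 4) * q) / r := by
        field_simp
      rw [h9, sub_nonneg, div_le_iff₀ (by linarith)]
      linarith)
  simp only [h0] at this
  have h1 := h.ss_ge hp ht
  have h2 := one_le_sqrt h1
  set r := √(ss (α t)) with hr
  set q := √r with hq
  have hq1 : 1 ≤ q := by rw [hq, Real.one_le_sqrt]; exact h2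
  have hrq : r = q ^ 2 := by rw [hq, Real.sq_sqrt]; linarith
  have h3 : q ^ 3 ≤ 1 + 12 / 5 * t := by linarith
  calc r ^ 3 = (q ^ 3) ^ 2 := by rw [hrq]; ring
    _ ≤ (1 + 12 / 5 * t) ^ 2 := by gcongr

/-- if `W ≥ 0` on `[0,T]` then `0 ≤ Z ≤ e t`, `W ≤ e` there -/
lemma Sol.Z_bounds (h : Sol p e α) {T : ℝ} (hW : ∀ t ∈ Icc 0 T, 0 ≤ α t 5) :
    ∀ t ∈ Icc 0 T, 0 ≤ α t 2 ∧ α t 5 ≤ e ∧ α t 2 ≤ e * t := by
  have h1 : ∀ t ∈ Icc 0 T, 0 ≤ α t 2 := by
    intro t ht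
    have := le_of_deriv_nonneg (f := fun t => α t 2) ht.1 (fun σ _ => h.d2 σ)
      (fun σ hσ => hW σ ⟨hσ.1, hσ.2.trans ht.2⟩)
    simpa [h.i2] using this
  have h2 : ∀ t ∈ Icc 0 T, α t 5 ≤ e := by
    intro t ht
    have := le_of_deriv_nonneg (f := fun t => -α t 5) ht.1
      (fun σ _ => (h.d5 σ).neg)
      (fun σ hσ => by
        have := mul_nonneg (Bf_nonneg (α σ)) (h1 σ ⟨hσ.1, hσ.2.trans ht.2⟩)
        linarith)
    simp only [h.i5] at this
    linarith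
  intro t ht
  refine ⟨h1 t ht, h2 t ht, ?_⟩
  have := le_of_deriv_nonneg (f := fun t => e * t - α t 2) (f' := fun t => e - α t 5) ht.1
    (fun σ _ => by
      exact (((hasDerivAt_id σ).const_mul e).sub (h.d2 σ)).congr_deriv (by simp))
    (fun σ hσ => by
      have := h2 σ ⟨hσ.1, hσ.2.trans ht.2⟩
      linarith)
  simp only [h.i2] at this
  linarith

end Pool.Agent.H399R3.Shape
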