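import Pool.Agent.H399R3.Shape3

set_option autoImplicit false

namespace Pool.Agent.H399R3.Shape

open Set Filter Topology

variable {p e : ℝ} {α : ℝ → Fin 6 → ℝ}

noncomputable def zt (t : ℝ) : ℝ := √(1 + 12 / 5 * t) * Real.sin (Real.log (1 + 12 / 5 * t) / 2)
noncomputable def zt1 (t : ℝ) : ℝ := (12 / 5) / (2 * √(1 + 12 / 5 * t)) *
  (Real.sin (Real.log (1 + 12 / 5 * t) / 2) + Real.cos (Real.log (1 + 12 / 5 * t) / 2))

lemma hasDerivAt_x (t : ℝ) : HasDerivAt (fun t : ℝ => 1 + 12 / 5 * t) (12 / 5) t := by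
  exact (((hasDerivAt_id t).const_mul (12/5:ℝ)).const_add 1).congr_deriv (by simp)

lemma zt_deriv {t : ℝ} (ht : 0 ≤ t) : HasDerivAt zt (zt1 t) t := by
  have hx : 0 < 1 + 12 / 5 * t := by positivity
  have h1 := (hasDerivAt_x t).sqrt hx.ne'
  have h2 := (((hasDerivAt_x t).log hx.ne').div_const 2).sin
  have h3 := h1.mul h2
  refine h3.congr_deriv ?_
  unfold zt1
  have hs : 0 < √(1 + 12 / 5 * t) := Real.sqrt_pos.2 hx
  have hs2 : 1 + 12 / 5 * t = √(1 + 12 / 5 * t) ^ 2 := by rw [Real.sq_sqrt hx.le]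
  set r := √(1 + 12 / 5 * t) with hr
  rw [hs2]
  field_simp

lemma zt1_deriv {t : ℝ} (ht : 0 ≤ t) :
    HasDerivAt zt1 (-(72 / 25) / (1 + 12 / 5 * t) ^ 2 * zt t) t := by
  have hx : 0 < 1 + 12 / 5 * t := by positivity
  have hs : 0 < √(1 + 12 / 5 * t) := Real.sqrt_pos.2 hx
  have h1 := (((hasDerivAt_x t).sqrt hx.ne').const_mul 2).inv (by positivity)
  have h2 := (((hasDerivAt_x t).log hx.ne').div_const 2)
  have h3 := (h1.const_mul (12 / 5)).mul (h2.sin.add h2.cos)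
  have h4 : zt1 = (fun t => (12 / 5) * (2 * √(1 + 12 / 5 * t))⁻¹) *
    ((fun t => Real.sin (Real.log (1 + 12 / 5 * t) / 2)) +
      fun t => Real.cos (Real.log (1 + 12 / 5 * t) / 2)) := by
    funext s
    simp [zt1, div_eq_mul_inv]
  rw [h4]
  refine h3.congr_deriv ?_
  unfold zt
  simp only [Pi.add_apply, Pi.inv_apply]
  have hs2 : 1 + 12 / 5 * t = √(1 + 12 / 5 * t) ^ 2 := by rw [Real.sq_sqrt hx.le]
  set S := Real.sin (Real.log (1 + 12 / 5 * t) / 2)
  set C := Real.cos (Real.log (1 + 12 / 5 * t) / 2)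
  set r := √(1 + 12 / 5 * t) with hr
  rw [hs2]
  field_simp
  ring

noncomputable def T1 : ℝ := (Real.exp (2 * Real.pi) - 1) / (12 / 5)

lemma T1_pos : 0 < T1 := by
  unfold T1
  have : 1 < Real.exp (2 * Real.pi) := by
    rw [Real.one_lt_exp_iff]
    positivity
  apply div_pos (by linarith) (by norm_num)

lemma x_T1 : 1 + 12 / 5 * T1 = Real.exp (2 * Real.pi) := by
  unfold T1
  ring

lemma theta_mem {t : ℝ} (ht : t ∈ Icc 0 T1) :
    0 ≤ Real.log (1 + 12 / 5 * t) / 2 ∧ Real.log (1 + 12 / 5 * t) / 2 ≤ Real.pi := by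
  have h0 : 1 ≤ 1 + 12 / 5 * t := by
    have := ht.1
    linarith
  have h1 : 1 + 12 / 5 * t ≤ Real.exp (2 * Real.pi) := by
    rw [← x_T1]
    have := ht.2
    linarith
  constructor
  · have := Real.log_nonneg h0
    linarith
  · have := Real.log_le_log (by linarith) h1
    rw [Real.log_exp] at this
    linarith

lemma zt_nonneg {t : ℝ} (ht : t ∈ Icc 0 T1) : 0 ≤ zt t := by
  unfold zt
  apply mul_nonneg (Real.sqrt_nonneg _)
  have := theta_mem ht
  exact Real.sin_nonneg_of_nonneg_of_le_pi this.1 this.2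

lemma zt_zero : zt 0 = 0 := by
  simp [zt]

lemma zt_T1 : zt T1 = 0 := by
  unfold zt
  rw [x_T1, Real.log_exp]
  have : 2 * Real.pi / 2 = Real.pi := by ring
  rw [this, Real.sin_pi, mul_zero]

lemma zt1_T1 : zt1 T1 < 0 := by
  unfold zt1
  rw [x_T1, Real.log_exp]
  have : 2 * Real.pi / 2 = Real.pi := by ring
  rw [this, Real.sin_pi, Real.cos_pi]
  have h : 0 < √(Real.exp (2 * Real.pi)) := Real.sqrt_pos.2 (Real.exp_pos _)
  have : 0 < 12 / 5 / (2 * √(Real.exp (2 * Real.pi))) := by positivity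
  linarith

/-- near-parabolic planar motion: the vertical velocity becomes negative -/
theorem Sol.low (h : Sol p e α) (hp : 5 / 2 < p ^ 2) (he : 0 < e)
    (hη : (p ^ 2 - 5 / 2 + e ^ 2 / 3) * (1 + 2 * T1) ≤ 3 / 50)
    (he2 : (e * T1) ^ 2 ≤ 27 / 1000) : ∃ t, 0 ≤ t ∧ α t 5 < 0 := by
  by_contra hcon
  push Not at hcon
  have hW : ∀ t ∈ Icc 0 T1, 0 ≤ α t 5 := fun t ht => hcon t ht.1
  have hZ := h.Z_bounds hW
  have hT := T1_pos
  -- lower bound for Bf
  have hB : ∀ t ∈ Icc 0 T1, (72 / 25) / (1 + 12 / 5 * t) ^ 2 ≤ Bf (α t) := by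
    intro t ht
    have h1 := h.ss_ge hp ht.1
    have h2 := one_le_sqrt h1
    have h3 := h.r_cube_le hp hη ht.1 ht.2
    rw [Bf_of_ge h1]
    obtain ⟨hz0, -, hz1⟩ := hZ t ht
    have hz2 : α t 2 ^ 2 ≤ 27 / 1000 := by
      refine le_trans ?_ he2
      have : α t 2 ≤ e * T1 := hz1.trans (mul_le_mul_of_nonneg_left ht.2 he.le)
      gcongr
    set r := √(ss (α t)) with hr
    have hr2 : ss (α t) = r ^ 2 := by rw [hr, Real.sq_sqrt]; linarith
    set ρ := √(ss (α t) + α t 2 ^ 2) with hρ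
    have hρ1 : ρ ≤ (10135 / 10000) * r := by
      rw [hρ, Real.sqrt_le_left (by positivity), hr2]
      nlinarith
    have hρ0 : r ≤ ρ := sqrt_le_sqrt_add (α t)
    have hρ3 : ρ ^ 3 ≤ ((10135 / 10000) * r) ^ 3 := by gcongr
    have hx : 0 < 1 + 12 / 5 * t := by
      have := ht.1
      positivity
    rw [div_le_div_iff₀ (by positivity) (by positivity)]
    nlinarith
  have hmono := le_of_deriv_nonneg (f := fun t => α t 2 * zt1 t - α t 5 * zt t)
    (f' := fun t => α t 2 * zt t * (Bf (α t) - (72 / 25) / (1 + 12 / 5 * t) ^ 2)) hT.le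
    (fun σ hσ => by
      have h1 := ((h.d2 σ).mul (zt1_deriv hσ.1)).sub ((h.d5 σ).mul (zt_deriv hσ.1))
      refine h1.congr_deriv ?_
      ring)
    (fun σ hσ => by
      apply mul_nonneg
      · exact mul_nonneg (hZ σ hσ).1 (zt_nonneg hσ)
      · have := hB σ hσ
        linarith)
  simp only [h.i2, zero_mul, zt_zero, mul_zero, sub_zero, zt_T1] at hmono
  have hZT : α T1 2 ≤ 0 := by
    by_contra h1
    push Not at h1
    have := mul_neg_of_pos_of_neg h1 zt1_T1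
    linarith
  -- Z is monotone, so it vanishes on [0,T1]; but its derivative at 0 is e > 0
  have hZ0 : ∀ t ∈ Icc 0 T1, α t 2 = 0 := by
    intro t ht
    apply le_antisymm _ (hZ t ht).1
    have := le_of_deriv_nonneg (f := fun t => α t 2) ht.2 (fun σ _ => h.d2 σ)
      (fun σ hσ => hcon σ (ht.1.trans hσ.1))
    exact this.trans hZT
  have hd := h.d2 0
  rw [h.i5] at hd
  have hslope := (hasDerivAt_iff_tendsto_slope.1 hd)
  have hev : ∀ᶠ τ in 𝓝[≠] (0:ℝ), 0 < slope (fun t => α t 2) 0 τ :=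
    hslope.eventually (lt_mem_nhds he)
  have hev2 : ∀ᶠ τ in 𝓝[>] (0:ℝ), 0 < slope (fun t => α t 2) 0 τ :=
    hev.filter_mono (nhdsWithin_mono _ (fun x hx => ne_of_gt hx))
  have hev3 : ∀ᶠ τ in 𝓝[>] (0:ℝ), τ ∈ Ioo 0 T1 := Ioo_mem_nhdsGT hT
  obtain ⟨τ, h1, h2⟩ := (hev2.and hev3).exists
  rw [slope_def_field, hZ0 τ ⟨h2.1.le, h2.2.le⟩, h.i2] at h1
  simp at h1

/-- monotone quantity controlling the tail -/
lemma Sol.tail (h : Sol p e α) (hp : 5 / 2 < p ^ 2) {s t : ℝ} (hs : 0 ≤ s)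
    (hst : s ≤ t) (hW : ∀ τ ∈ Icc 0 t, 0 ≤ α τ 5) :
    α s 5 - e * (3 / (p ^ 2 - 5 / 2)) / √(1 + (p ^ 2 - 5 / 2) * s ^ 2) ≤
      α t 5 - e * (3 / (p ^ 2 - 5 / 2)) / √(1 + (p ^ 2 - 5 / 2) * t ^ 2) := by
  have hZ := h.Z_bounds hW
  set a := p ^ 2 - 5 / 2 with ha
  have ha0 : 0 < a := by linarith
  have hD : ∀ σ : ℝ, 0 < 1 + a * σ ^ 2 := fun σ => by positivity
  have := le_of_deriv_nonneg (f := fun t => α t 5 - e * (3 / a) / √(1 + a * t ^ 2))
    (f' := fun σ => -(Bf (α σ) * α σ 2) + 3 * e * σ / √(1 + a * σ ^ 2) ^ 3) hst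
    (fun σ hσ => by
      have h0 : HasDerivAt (fun t : ℝ => 1 + a * t ^ 2) (a * (2 * σ)) σ := by
        exact ((((hasDerivAt_id σ).pow 2).const_mul a).const_add 1).congr_deriv (by simp)
      have h1 := ((h0.sqrt (hD σ).ne').inv (Real.sqrt_pos.2 (hD σ)).ne').const_mul (e * (3 / a))
      have h2 := (h.d5 σ).sub h1
      have h3 : (fun t => α t 5 - e * (3 / a) / √(1 + a * t ^ 2)) =
          (fun t => α t 5) - fun t => e * (3 / a) * (√(1 + a * t ^ 2))⁻¹ := by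
        funext x
        simp [div_eq_mul_inv]
      rw [h3]
      refine h2.congr_deriv ?_
      have hq := Real.sqrt_pos.2 (hD σ)
      set q := √(1 + a * σ ^ 2)
      field_simp
      ring)
    (fun σ hσ => by
      have hσ0 : 0 ≤ σ := hs.trans hσ.1
      obtain ⟨hz0, -, hz1⟩ := hZ σ ⟨hσ0, hσ.2⟩
      have h1 := h.ss_ge hp hσ0
      have h1' := (h.main_bound hp σ hσ0).2.1
      have hρ : √(1 + a * σ ^ 2) ≤ √(ss (α σ) + α σ 2 ^ 2) := by
        apply Real.sqrt_le_sqrt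
        nlinarith [sq_nonneg (α σ 2)]
      have hq := Real.sqrt_pos.2 (hD σ)
      have hB : Bf (α σ) ≤ 3 / √(1 + a * σ ^ 2) ^ 3 := by
        rw [Bf_of_ge h1]
        apply div_le_div_of_nonneg_left (by norm_num) (by positivity)
        gcongr
      have hB2 : Bf (α σ) * α σ 2 ≤ 3 / √(1 + a * σ ^ 2) ^ 3 * (e * σ) :=
        mul_le_mul hB hz1 hz0 (by positivity)
      have h5 : 3 * e * σ / √(1 + a * σ ^ 2) ^ 3 = 3 / √(1 + a * σ ^ 2) ^ 3 * (e * σ) := by ring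
      rw [h5]
      linarith)
  exact this

end Pool.Agent.H399R3.Shape
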