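import Pool.Agent.H399R3.Shape4

set_option autoImplicit false

namespace Pool.Agent.H399R3.Shape

open Set Filter Topology Metric
open scoped NNReal

lemma flow_ex : ∃ φ : ℝ → (Fin 6 → ℝ) → (Fin 6 → ℝ), (∀ x, φ 0 x = x) ∧
    (∀ x t, HasDerivAt (fun s => φ s x) (F (φ t x)) t) ∧
      (∀ t, Continuous (φ t)) ∧
      (∀ γ : ℝ → (Fin 6 → ℝ), (∀ t, HasDerivAt γ (F (γ t)) t) → ∀ t s, γ (t + s) = φ s (γ t)) :=
  Pool.Agent.Helper981.exists_flow F_contDiff (A := 24) (by norm_num) F_bound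

noncomputable def phi : ℝ → (Fin 6 → ℝ) → (Fin 6 → ℝ) := Classical.choose flow_ex

lemma phi_zero (x : Fin 6 → ℝ) : phi 0 x = x := (Classical.choose_spec flow_ex).1 x
lemma phi_deriv (x : Fin 6 → ℝ) (t : ℝ) : HasDerivAt (fun s => phi s x) (F (phi t x)) t :=
  (Classical.choose_spec flow_ex).2.1 x t
lemma phi_unique {γ : ℝ → (Fin 6 → ℝ)} (h : ∀ t, HasDerivAt γ (F (γ t)) t) (s : ℝ) :
    γ s = phi s (γ 0) := by
  have := (Classical.choose_spec flow_ex).2.2.2 γ h 0 s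
  rwa [zero_add] at this

lemma sol (p e : ℝ) : Sol p e (fun t => phi t (ini p e)) :=
  ⟨phi_zero _, fun t => phi_deriv _ t⟩

lemma Sol.eq_phi {p e : ℝ} {α : ℝ → Fin 6 → ℝ} (h : Sol p e α) (t : ℝ) :
    α t = phi t (ini p e) := by
  rw [phi_unique h.ode t, h.init]

lemma close (T R : ℝ) (hR : 0 ≤ R) : ∃ C : ℝ, 0 ≤ C ∧ ∀ x y : Fin 6 → ℝ, ‖x‖ ≤ R → ‖y‖ ≤ R →
    ∀ t ∈ Icc 0 T, dist (phi t x) (phi t y) ≤ C * dist x y := by
  obtain ⟨K, hK⟩ := Pool.Agent.Helper981.lip_on_ball F_contDiff 0 (gronwallBound R 24 24 T)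
  refine ⟨Real.exp (K * T), (Real.exp_pos _).le, ?_⟩
  intro x y hx hy t ht
  have hK' : LipschitzOnWith K F (closedBall 0 (gronwallBound R 24 24 t)) :=
    hK.mono (closedBall_subset_closedBall
      (gronwallBound_mono hR (by norm_num) (by norm_num) ht.2))
  have h1 := Pool.Agent.Helper981.sol_dist (by norm_num) F_bound (T := t) hK'
    (fun s => phi_deriv x s) (fun s => phi_deriv y s)
    (by rw [phi_zero]; exact hx) (by rw [phi_zero]; exact hy) ht.1
  simp only [phi_zero] at h1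
  rw [mul_comm]
  refine h1.trans ?_
  apply mul_le_mul_of_nonneg_left _ dist_nonneg
  rw [Real.exp_le_exp]
  exact mul_le_mul_of_nonneg_left ht.2 K.2

lemma ini_norm {p e : ℝ} (hp : |p| ≤ 3) (he : |e| ≤ 1) : ‖ini p e‖ ≤ 3 := by
  rw [pi_norm_le_iff_of_nonneg (by norm_num)]
  intro i
  fin_cases i <;> simp [ini]
  · exact hp
  · linarith

lemma ini_dist (p p' e : ℝ) : dist (ini p e) (ini p' e) ≤ |p - p'| := by
  rw [dist_pi_le_iff (abs_nonneg _)]
  intro i
  fin_cases i <;> simp [ini, Real.dist_eq]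

/-- vertical velocity -/
noncomputable def WW (p e t : ℝ) : ℝ := phi t (ini p e) 5

lemma WW_close (T : ℝ) : ∃ C : ℝ, 0 ≤ C ∧ ∀ p p' e : ℝ, |p| ≤ 3 → |p'| ≤ 3 → |e| ≤ 1 →
    ∀ t ∈ Icc 0 T, |WW p e t - WW p' e t| ≤ C * |p - p'| := by
  obtain ⟨C, hC, h⟩ := close T 3 (by norm_num)
  refine ⟨C, hC, ?_⟩
  intro p p' e hp hp' he t ht
  have h1 := h (ini p e) (ini p' e) (ini_norm hp he) (ini_norm hp' he) t ht
  have h2 := dist_le_pi_dist (phi t (ini p e)) (phi t (ini p' e)) 5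
  have h3 := mul_le_mul_of_nonneg_left (ini_dist p p' e) hC
  have h4 : |WW p e t - WW p' e t| = dist (phi t (ini p e) 5) (phi t (ini p' e) 5) := by
    rw [Real.dist_eq]; rfl
  rw [h4]
  linarith

/-- first zero of a continuous function that is positive at zero and somewhere negative -/
lemma first_zero {f : ℝ → ℝ} (hf : Continuous f) (h0 : 0 < f 0) {t1 : ℝ} (ht1 : 0 ≤ t1)
    (h1 : f t1 < 0) : ∃ t0, 0 ≤ t0 ∧ f t0 = 0 ∧ ∀ τ ∈ Icc 0 t0, 0 ≤ f τ := by
  set S : Set ℝ := {t | 0 ≤ t ∧ f t ≤ 0} with hS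
  have hcl : IsClosed S := by
    apply IsClosed.inter
    · exact isClosed_Ici
    · exact isClosed_le hf continuous_const
  have hne : S.Nonempty := ⟨t1, ht1, h1.le⟩
  have hbdd : BddBelow S := ⟨0, fun t ht => ht.1⟩
  have hmem := hcl.csInf_mem hne hbdd
  set t0 := sInf S
  have hb : ∀ τ, 0 ≤ τ → τ < t0 → 0 < f τ := by
    intro τ h2 h3
    by_contra h4
    push Not at h4
    exact absurd (csInf_le hbdd (⟨h2, h4⟩ : τ ∈ S)) (not_le.2 h3)
  have hpos : 0 < t0 := by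
    rcases eq_or_lt_of_le hmem.1 with h | h
    · have := hmem.2
      rw [← h] at this
      linarith
    · exact h
  have hz : 0 ≤ f t0 := by
    by_contra h3
    push Not at h3
    have : ∀ᶠ τ in 𝓝 t0, f τ < 0 := hf.continuousAt.eventually (gt_mem_nhds h3)
    have h4 : ∀ᶠ τ in 𝓝[<] t0, f τ < 0 := nhdsWithin_le_nhds this
    have h5 : ∀ᶠ τ in 𝓝[<] t0, τ ∈ Ioo 0 t0 := Ioo_mem_nhdsLT hpos
    obtain ⟨τ, hτ1, hτ2⟩ := (h4.and h5).exists
    exact absurd hτ1 (not_lt.2 (hb τ hτ2.1.le hτ2.2).le)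
  refine ⟨t0, hmem.1, le_antisymm hmem.2 hz, ?_⟩
  intro τ hτ
  rcases eq_or_lt_of_le hτ.2 with h | h
  · rw [h]; exact hz
  · exact (hb τ hτ.1 h).le

lemma WW_cont (p e : ℝ) : Continuous (WW p e) :=
  continuous_iff_continuousAt.2 (fun t => ((sol p e).d5 t).continuousAt)

lemma WW_zero (p e : ℝ) : WW p e 0 = e := (sol p e).i5

/-- the tail bound -/
noncomputable def del (p e t : ℝ) : ℝ :=
  e * (3 / (p ^ 2 - 5 / 2)) / √(1 + (p ^ 2 - 5 / 2) * t ^ 2)

lemma del_pos {p e : ℝ} (hp : 5 / 2 < p ^ 2) (he : 0 < e) (t : ℝ) : 0 < del p e t := by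
  unfold del
  have : 0 < p ^ 2 - 5 / 2 := by linarith
  positivity

lemma tail' {p e : ℝ} (hp : 5 / 2 < p ^ 2) {s t : ℝ} (hs : 0 ≤ s)
    (hst : s ≤ t) (hW : ∀ τ ∈ Icc 0 t, 0 ≤ WW p e τ) :
    WW p e s - del p e s ≤ WW p e t - del p e t :=
  (sol p e).tail hp hs hst hW

/-- for `p = 3` the vertical velocity stays nonnegative -/
lemma high {e : ℝ} (he : 0 < e) : ∀ t, 0 ≤ t → 0 ≤ WW 3 e t := by
  by_contra hcon
  push Not at hcon
  obtain ⟨t1, ht1, h1⟩ := hcon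
  obtain ⟨t0, h2, h3, h4⟩ := first_zero (WW_cont 3 e) (by rw [WW_zero]; exact he) ht1 h1
  have h5 := tail' (p := 3) (e := e) (by norm_num) le_rfl h2 h4
  have h6 := del_pos (p := 3) (by norm_num) he t0
  rw [WW_zero, h3] at h5
  have h7 : del 3 e 0 = e * (6 / 13) := by
    unfold del
    norm_num
  rw [h7] at h5
  linarith

/-- vertical velocity is nonincreasing while it is nonnegative -/
lemma WW_anti {p e : ℝ} (hW : ∀ t, 0 ≤ t → 0 ≤ WW p e t) {s t : ℝ} (hs : 0 ≤ s) (hst : s ≤ t) :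
    WW p e t ≤ WW p e s := by
  have hZ := (sol p e).Z_bounds (T := t) (fun τ hτ => hW τ hτ.1)
  have := le_of_deriv_nonneg (f := fun t => -WW p e t) hst
    (fun σ _ => ((sol p e).d5 σ).neg)
    (fun σ hσ => by
      have := mul_nonneg (Bf_nonneg (phi σ (ini p e))) (hZ σ ⟨hs.trans hσ.1, hσ.2⟩).1
      linarith)
  linarith

theorem shoot {e pb : ℝ} (he : 0 < e) (he1 : e ≤ 1) (hpb : 0 < pb) (hpb3 : pb ≤ 3)
    (hpb2 : 5 / 2 < pb ^ 2) (hlow : ∃ t, 0 ≤ t ∧ WW pb e t < 0) :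
    ∃ p ∈ Icc pb 3, (∀ t, 0 ≤ t → 0 ≤ WW p e t) ∧ (∀ t, 0 ≤ t → WW p e t ≤ del p e t) := by
  set P : Set ℝ := {p | p ∈ Icc pb 3 ∧ ∃ t, 0 ≤ t ∧ WW p e t < 0} with hP
  have hne : P.Nonempty := ⟨pb, ⟨le_rfl, hpb3⟩, hlow⟩
  have hbdd : BddAbove P := ⟨3, fun p hp => hp.1.2⟩
  set ps := sSup P with hps
  have hps3 : ps ≤ 3 := csSup_le hne (fun p hp => hp.1.2)
  have hpsb : pb ≤ ps := le_csSup hbdd ⟨⟨le_rfl, hpb3⟩, hlow⟩
  have habs : ∀ p ∈ Icc pb 3, |p| ≤ 3 := fun p hp => by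
    rw [abs_of_nonneg (by linarith [hp.1])]
    exact hp.2
  have hsq : ∀ p ∈ Icc pb 3, 5 / 2 < p ^ 2 := fun p hp => by
    have : pb ^ 2 ≤ p ^ 2 := by
      have := hp.1
      gcongr
    linarith
  have heabs : |e| ≤ 1 := by rw [abs_of_pos he]; exact he1
  -- ps not in P
  have hnot : ps ∉ P := by
    rintro ⟨hmem, t, ht, hneg⟩
    have hlt : ps < 3 := by
      rcases eq_or_lt_of_le hps3 with h | h
      · rw [h] at hneg
        exact absurd hneg (not_lt.2 (high he t ht))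
      · exact h
    obtain ⟨C, hC, hcl⟩ := WW_close t
    set d := min (3 - ps) (-(WW ps e t) / (2 * (C + 1))) with hd
    have hd0 : 0 < d := by
      apply lt_min (by linarith)
      apply div_pos (by linarith) (by positivity)
    have hd1 : d ≤ 3 - ps := min_le_left _ _
    have hd2 : d ≤ -(WW ps e t) / (2 * (C + 1)) := min_le_right _ _
    have hm : ps + d ∈ Icc pb 3 := ⟨by linarith, by linarith⟩
    have h1 := hcl (ps + d) ps e (habs _ hm) (habs _ hmem) heabs t ⟨ht, le_rfl⟩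
    have h2 : |ps + d - ps| = d := by
      rw [add_sub_cancel_left, abs_of_pos hd0]
    rw [h2] at h1
    have h3 : C * d ≤ -(WW ps e t) / 2 := by
      rw [le_div_iff₀ (by positivity)] at hd2
      nlinarith
    have h4 : WW (ps + d) e t < 0 := by
      have := (abs_le.1 h1).2
      linarith
    have h5 : ps + d ∈ P := ⟨hm, t, ht, h4⟩
    have := le_csSup hbdd h5
    linarith
  have hmem : ps ∈ Icc pb 3 := ⟨hpsb, hps3⟩
  have hWnn : ∀ t, 0 ≤ t → 0 ≤ WW ps e t := by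
    intro t ht
    by_contra h
    push Not at h
    exact hnot ⟨hmem, t, ht, h⟩
  refine ⟨ps, hmem, hWnn, ?_⟩
  intro T hT
  by_contra hcon
  push Not at hcon
  -- gap
  have hdc : ContinuousAt (fun p => del p e T) ps := by
    unfold del
    have h1 : ps ^ 2 - 5 / 2 ≠ 0 := by
      have := hsq ps hmem
      linarith
    have h2 : √(1 + (ps ^ 2 - 5 / 2) * T ^ 2) ≠ 0 := by
      have := hsq ps hmem
      have : 0 < 1 + (ps ^ 2 - 5 / 2) * T ^ 2 := by
        have h3 : 0 < ps ^ 2 - 5 / 2 := by linarith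
        positivity
      exact (Real.sqrt_pos.2 this).ne'
    fun_prop (disch := assumption)
  obtain ⟨C, hC, hcl⟩ := WW_close T
  set m := (WW ps e T + del ps e T) / 2 with hm
  have hdpos := del_pos (hsq ps hmem) he T
  have hmlt : m < WW ps e T := by linarith
  have hmgt : del ps e T < m := by linarith
  have hm0 : 0 < m := by linarith
  have hev1 : ∀ᶠ p in 𝓝 ps, del p e T < m := hdc.eventually (gt_mem_nhds hmgt)
  have hev2 : ∀ᶠ p in 𝓝 ps, C * |p - ps| < WW ps e T - m := by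
    have hc : Continuous (fun p : ℝ => C * |p - ps|) := by fun_prop
    have : Tendsto (fun p : ℝ => C * |p - ps|) (𝓝 ps) (𝓝 0) := by
      have := hc.tendsto ps
      simpa using this
    exact this.eventually (gt_mem_nhds (by linarith))
  obtain ⟨ε, hε, hball⟩ := Metric.eventually_nhds_iff.1 (hev1.and hev2)
  -- a point of P near ps
  obtain ⟨p, hpP, hplt⟩ := exists_lt_of_lt_csSup hne (show ps - ε < sSup P by linarith)
  have hple : p ≤ ps := le_csSup hbdd hpP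
  have hdist : dist p ps < ε := by
    rw [Real.dist_eq, abs_lt]
    constructor <;> linarith
  obtain ⟨h1, h2⟩ := hball hdist
  obtain ⟨hpm, t1, ht1, hneg⟩ := hpP
  have hpW : ∀ t ∈ Icc 0 T, m < WW p e t := by
    intro t ht
    have h3 := hcl p ps e (habs p hpm) (habs ps hmem) heabs t ht
    have h4 := WW_anti hWnn ht.1 ht.2
    have h5 := (abs_le.1 h3).1
    linarith
  obtain ⟨t0, ht0, hz, hnn⟩ := first_zero (WW_cont p e) (by rw [WW_zero]; exact he) ht1 hneg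
  have hT0 : T ≤ t0 := by
    by_contra h
    push Not at h
    have := hpW t0 ⟨ht0, h.le⟩
    linarith
  have h6 := tail' (hsq p hpm) hT hT0 hnn
  have h7 := hpW T ⟨hT, le_rfl⟩
  have h8 := del_pos (hsq p hpm) he t0
  linarith

end Pool.Agent.H399R3.Shape
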