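import Pool.Agent.H399R3.Shape5

set_option autoImplicit false

namespace Pool.Agent.H399R3.Shape

open Set Filter Topology Metric MeasureTheory

/-- time reversal symmetry -/
lemma phi_neg (p e t : ℝ) : phi (-t) (ini p e) =
    ![phi t (ini p e) 0, -phi t (ini p e) 1, -phi t (ini p e) 2, -phi t (ini p e) 3,
      phi t (ini p e) 4, phi t (ini p e) 5] := by
  have h := sol p e
  set α : ℝ → Fin 6 → ℝ := fun t => phi t (ini p e) with hα
  have hs : Sol p e (fun t => ![α (-t) 0, -α (-t) 1, -α (-t) 2, -α (-t) 3, α (-t) 4, α (-t) 5]) := by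
    constructor
    · funext i
      fin_cases i <;> simp [h.i0, h.i1, h.i2, h.i3, h.i4, h.i5, ini]
    · intro t
      have hA : Af ![α (-t) 0, -α (-t) 1, -α (-t) 2, -α (-t) 3, α (-t) 4, α (-t) 5] = Af (α (-t)) := by
        simp [Af]
      have hB : Bf ![α (-t) 0, -α (-t) 1, -α (-t) 2, -α (-t) 3, α (-t) 4, α (-t) 5] = Bf (α (-t)) := by
        simp [Bf]
      rw [hasDerivAt_pi]
      intro i
      have hn : HasDerivAt (fun s : ℝ => -s) (-1) t := hasDerivAt_neg t
      have k0 := (h.d0 (-t)).comp t hn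
      have k1 := ((h.d1 (-t)).comp t hn).neg
      have k2 := ((h.d2 (-t)).comp t hn).neg
      have k3 := ((h.d3 (-t)).comp t hn).neg
      have k4 := (h.d4 (-t)).comp t hn
      have k5 := (h.d5 (-t)).comp t hn
      fin_cases i
      · exact k0.congr_deriv (by simp [F, hα])
      · exact k1.congr_deriv (by simp [F, hα])
      · exact k2.congr_deriv (by simp [F, hα])
      · refine k3.congr_deriv ?_
        simp only [F]
        rw [hA]
        simp
      · refine k4.congr_deriv ?_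
        simp only [F]
        rw [hA]
        simp
      · refine k5.congr_deriv ?_
        simp only [F]
        rw [hB]
        simp
  have := hs.eq_phi (-t)
  rw [← this]
  simp [hα]

/-- vertical reflection symmetry -/
lemma phi_refl (p e t : ℝ) : phi t (ini p (-e)) =
    ![phi t (ini p e) 0, phi t (ini p e) 1, -phi t (ini p e) 2, phi t (ini p e) 3,
      phi t (ini p e) 4, -phi t (ini p e) 5] := by
  have h := sol p e
  set α : ℝ → Fin 6 → ℝ := fun t => phi t (ini p e) with hα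
  have hs : Sol p (-e) (fun t => ![α t 0, α t 1, -α t 2, α t 3, α t 4, -α t 5]) := by
    constructor
    · funext i
      fin_cases i <;> simp [h.i0, h.i1, h.i2, h.i3, h.i4, h.i5, ini]
    · intro t
      have hA : Af ![α t 0, α t 1, -α t 2, α t 3, α t 4, -α t 5] = Af (α t) := by
        simp [Af]
      have hB : Bf ![α t 0, α t 1, -α t 2, α t 3, α t 4, -α t 5] = Bf (α t) := by
        simp [Bf]
      rw [hasDerivAt_pi]
      intro i
      fin_cases i
      · exact (h.d0 t).congr_deriv (by simp [F, hα])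
      · exact (h.d1 t).congr_deriv (by simp [F, hα])
      · exact (h.d2 t).neg.congr_deriv (by simp [F, hα])
      · refine (h.d3 t).congr_deriv ?_
        simp only [F]
        rw [hA]
        simp [hα]
      · refine (h.d4 t).congr_deriv ?_
        simp only [F]
        rw [hA]
        simp [hα]
      · refine (h.d5 t).neg.congr_deriv ?_
        simp only [F]
        rw [hB]
        simp [hα]
  exact (hs.eq_phi t).symm

lemma ss_ge' {p e : ℝ} (hp : 5 / 2 < p ^ 2) (t : ℝ) : 1 ≤ ss (phi t (ini p e)) := by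
  rcases le_total 0 t with ht | ht
  · exact (sol p e).ss_ge hp ht
  · have h1 := (sol p e).ss_ge hp (t := -t) (by linarith)
    have h2 := phi_neg p e (-t)
    rw [neg_neg] at h2
    rw [h2]
    unfold ss at h1 ⊢
    simpa using h1

lemma exists_limit {f f' : ℝ → ℝ} (h : ∀ t, HasDerivAt f (f' t) t) (hc : Continuous f') {C : ℝ}
    (hb : ∀ t, 0 ≤ t → |f' t| ≤ C * (1 + t ^ 2)⁻¹) : ∃ L, Tendsto f atTop (𝓝 L) := by
  have hint : IntegrableOn f' (Ioi 0) := by
    have h1 : IntegrableOn (fun t : ℝ => C * (1 + t ^ 2)⁻¹) (Ioi 0) :=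
      (integrable_inv_one_add_sq.const_mul C).integrableOn
    refine Integrable.mono' h1 hc.aestronglyMeasurable ?_
    filter_upwards [ae_restrict_mem measurableSet_Ioi] with t ht
    exact hb t (le_of_lt ht)
  exact ⟨_, tendsto_limUnder_of_hasDerivAt_of_integrableOn_Ioi (a := 0) (fun t _ => h t) hint⟩

lemma tendsto_div_of_deriv {f f' : ℝ → ℝ} (h : ∀ t, HasDerivAt f (f' t) t) {L : ℝ}
    (hL : Tendsto f' atTop (𝓝 L)) : Tendsto (fun t => t⁻¹ * f t) atTop (𝓝 L) := by
  rw [Metric.tendsto_atTop]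
  intro ε hε
  obtain ⟨T, hT⟩ := (Metric.tendsto_atTop.1 hL) (ε / 2) (by linarith)
  set T' := max T 1 with hT'
  have hT'1 : 1 ≤ T' := le_max_right _ _
  have hub : ∀ t, T' ≤ t → f t - (L + ε / 2) * t ≤ f T' - (L + ε / 2) * T' := by
    intro t ht
    have := le_of_deriv_nonneg (f := fun t => (L + ε / 2) * t - f t)
      (f' := fun t => (L + ε / 2) - f' t) ht
      (fun σ _ => (((hasDerivAt_id σ).const_mul (L + ε / 2)).sub (h σ)).congr_deriv (by simp))
      (fun σ hσ => by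
        have := hT σ ((le_max_left _ _).trans hσ.1)
        rw [Real.dist_eq, abs_lt] at this
        linarith [this.2])
    linarith
  have hlb : ∀ t, T' ≤ t → f T' - (L - ε / 2) * T' ≤ f t - (L - ε / 2) * t := by
    intro t ht
    have := le_of_deriv_nonneg (f := fun t => f t - (L - ε / 2) * t)
      (f' := fun t => f' t - (L - ε / 2)) ht
      (fun σ _ => ((h σ).sub ((hasDerivAt_id σ).const_mul (L - ε / 2))).congr_deriv (by simp))
      (fun σ hσ => by
        have := hT σ ((le_max_left _ _).trans hσ.1)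
        rw [Real.dist_eq, abs_lt] at this
        linarith [this.1])
    linarith
  set M := |f T' - (L + ε / 2) * T'| + |f T' - (L - ε / 2) * T'| with hM
  refine ⟨max T' (4 * M / ε + 1), fun t ht => ?_⟩
  have ht1 : T' ≤ t := (le_max_left _ _).trans ht
  have ht2 : 4 * M / ε + 1 ≤ t := (le_max_right _ _).trans ht
  have ht0 : 0 < t := by linarith
  have hM0 : 0 ≤ M := by positivity
  have h3 : 4 * M < ε * t := by
    have : 4 * M / ε < t := by linarith
    rw [div_lt_iff₀ hε] at this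
    linarith
  rw [Real.dist_eq, abs_lt]
  have h1 := hub t ht1
  have h2 := hlb t ht1
  have h4 := le_abs_self (f T' - (L + ε / 2) * T')
  have h5 := neg_abs_le (f T' - (L - ε / 2) * T')
  have h6 := abs_nonneg (f T' - (L + ε / 2) * T')
  have h7 := abs_nonneg (f T' - (L - ε / 2) * T')
  have h8 : t⁻¹ * f t - L = (f t - L * t) / t := by
    field_simp
  rw [h8]
  constructor
  · rw [lt_div_iff₀ ht0]
    nlinarith
  · rw [div_lt_iff₀ ht0]
    nlinarith

section asym

variable {p e : ℝ}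

lemma inv_bound {a t : ℝ} (ha : 0 < a) : (1 + a * t ^ 2)⁻¹ ≤ (min 1 a)⁻¹ * (1 + t ^ 2)⁻¹ := by
  rw [← mul_inv]
  have hm : 0 < min 1 a := lt_min one_pos ha
  apply inv_anti₀ (by positivity)
  have h1 : min 1 a ≤ 1 := min_le_left _ _
  have h2 : min 1 a ≤ a := min_le_right _ _
  nlinarith [sq_nonneg t]

lemma force_bound (hp : 5 / 2 < p ^ 2) {t : ℝ} (ht : 0 ≤ t) (i : Fin 6) (hi : i = 0 ∨ i = 1) :
    |-(Af (phi t (ini p e)) * phi t (ini p e) i)| ≤
      (5 / 4) * (min 1 (p ^ 2 - 5 / 2))⁻¹ * (1 + t ^ 2)⁻¹ := by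
  have h := sol p e
  set x := phi t (ini p e) with hx
  have h1 : 1 ≤ ss x := ss_ge' hp t
  have h2 := Af_mul_le h1
  have h3 := one_le_sqrt h1
  have h4 : |x i| ≤ √(ss x) := by
    apply Real.abs_le_sqrt
    unfold ss
    rcases hi with rfl | rfl
    · nlinarith [sq_nonneg (x 1)]
    · nlinarith [sq_nonneg (x 0)]
  have h5 : 1 + (p ^ 2 - 5 / 2) * t ^ 2 ≤ ss x := (h.main_bound hp t ht).2.1
  have ha : 0 < p ^ 2 - 5 / 2 := by linarith
  have h6 := inv_bound (t := t) ha
  rw [abs_neg, abs_mul, abs_of_nonneg (Af_nonneg x)]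
  have h7 : ss x = √(ss x) ^ 2 := by rw [Real.sq_sqrt]; linarith
  have h8 : Af x * √(ss x) ≤ (5 / 4) * (ss x)⁻¹ := by
    have : Af x * √(ss x) * ss x ≤ 5 / 4 := by
      calc Af x * √(ss x) * ss x = (Af x * ss x) * √(ss x) := by ring
        _ ≤ ((5 / 4) / √(ss x)) * √(ss x) := mul_le_mul_of_nonneg_right h2 (by linarith)
        _ = 5 / 4 := by field_simp
    rw [← div_eq_mul_inv, le_div_iff₀ (by linarith)]
    exact this
  have h9 : (ss x)⁻¹ ≤ (1 + (p ^ 2 - 5 / 2) * t ^ 2)⁻¹ := inv_anti₀ (by positivity) h5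
  calc Af x * |x i| ≤ Af x * √(ss x) := mul_le_mul_of_nonneg_left h4 (Af_nonneg x)
    _ ≤ (5 / 4) * (ss x)⁻¹ := h8
    _ ≤ (5 / 4) * ((min 1 (p ^ 2 - 5 / 2))⁻¹ * (1 + t ^ 2)⁻¹) := by
        apply mul_le_mul_of_nonneg_left (h9.trans h6) (by norm_num)
    _ = _ := by ring

lemma force_bound2 (hp : 5 / 2 < p ^ 2) {t : ℝ} (ht : 0 ≤ t) :
    |-(Bf (phi t (ini p e)) * phi t (ini p e) 2)| ≤
      3 * (min 1 (p ^ 2 - 5 / 2))⁻¹ * (1 + t ^ 2)⁻¹ := by
  have h := sol p e
  set x := phi t (ini p e) with hx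
  have h1 : 1 ≤ ss x := ss_ge' hp t
  have h5 : 1 + (p ^ 2 - 5 / 2) * t ^ 2 ≤ ss x := (h.main_bound hp t ht).2.1
  have ha : 0 < p ^ 2 - 5 / 2 := by linarith
  have h6 := inv_bound (t := t) ha
  rw [abs_neg, abs_mul, abs_of_nonneg (Bf_nonneg x), Bf_of_ge h1]
  have hρ : 0 < ss x + x 2 ^ 2 := by positivity
  have h4 : |x 2| ≤ √(ss x + x 2 ^ 2) := by
    apply Real.abs_le_sqrt
    linarith
  have hq := Real.sqrt_pos.2 hρ
  have h7 : ss x + x 2 ^ 2 = √(ss x + x 2 ^ 2) ^ 2 := by rw [Real.sq_sqrt hρ.le]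
  have h8 : 3 / √(ss x + x 2 ^ 2) ^ 3 * |x 2| ≤ 3 * (ss x)⁻¹ := by
    calc 3 / √(ss x + x 2 ^ 2) ^ 3 * |x 2|
        ≤ 3 / √(ss x + x 2 ^ 2) ^ 3 * √(ss x + x 2 ^ 2) :=
          mul_le_mul_of_nonneg_left h4 (by positivity)
      _ = 3 * (√(ss x + x 2 ^ 2) ^ 2)⁻¹ := by field_simp
      _ ≤ 3 * (ss x)⁻¹ := by
          rw [← h7]
          apply mul_le_mul_of_nonneg_left _ (by norm_num)
          apply inv_anti₀ (by linarith)
          nlinarith [sq_nonneg (x 2)]
  have h9 : (ss x)⁻¹ ≤ (1 + (p ^ 2 - 5 / 2) * t ^ 2)⁻¹ := inv_anti₀ (by positivity) h5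
  calc 3 / √(ss x + x 2 ^ 2) ^ 3 * |x 2| ≤ 3 * (ss x)⁻¹ := h8
    _ ≤ 3 * ((min 1 (p ^ 2 - 5 / 2))⁻¹ * (1 + t ^ 2)⁻¹) := by
        apply mul_le_mul_of_nonneg_left (h9.trans h6) (by norm_num)
    _ = _ := by ring

lemma phi_cont (p e : ℝ) : Continuous (fun t => phi t (ini p e)) :=
  continuous_iff_continuousAt.2 (fun t => (phi_deriv _ t).continuousAt)

/-- asymptotic velocities -/
theorem asym (hp : 5 / 2 < p ^ 2) : ∃ a b c : ℝ, 0 < a ^ 2 + b ^ 2 ∧
    Tendsto (fun t => phi t (ini p e) 5) atTop (𝓝 c) ∧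
    Tendsto (fun t => t⁻¹ * phi t (ini p e) 0) atTop (𝓝 a) ∧
    Tendsto (fun t => t⁻¹ * phi t (ini p e) 1) atTop (𝓝 b) ∧
    Tendsto (fun t => t⁻¹ * phi t (ini p e) 2) atTop (𝓝 c) := by
  have h := sol p e
  have hcA : Continuous (fun t => Af (phi t (ini p e))) := Af_contDiff.continuous.comp (phi_cont p e)
  have hcB : Continuous (fun t => Bf (phi t (ini p e))) := Bf_contDiff.continuous.comp (phi_cont p e)
  have hci : ∀ i, Continuous (fun t => phi t (ini p e) i) := fun i =>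
    (continuous_apply i).comp (phi_cont p e)
  obtain ⟨a, ha⟩ := exists_limit (fun t => h.d3 t) ((hcA.mul (hci 0)).neg)
    (fun t ht => force_bound hp ht 0 (Or.inl rfl))
  obtain ⟨b, hb⟩ := exists_limit (fun t => h.d4 t) ((hcA.mul (hci 1)).neg)
    (fun t ht => force_bound hp ht 1 (Or.inr rfl))
  obtain ⟨c, hc⟩ := exists_limit (fun t => h.d5 t) ((hcB.mul (hci 2)).neg)
    (fun t ht => force_bound2 hp ht)
  refine ⟨a, b, c, ?_, hc, tendsto_div_of_deriv (fun t => h.d0 t) ha,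
    tendsto_div_of_deriv (fun t => h.d1 t) hb, tendsto_div_of_deriv (fun t => h.d2 t) hc⟩
  have hl : Tendsto (fun t => phi t (ini p e) 3 ^ 2 + phi t (ini p e) 4 ^ 2) atTop
      (𝓝 (a ^ 2 + b ^ 2)) := (ha.pow 2).add (hb.pow 2)
  have hge : ∀ᶠ t in atTop, p ^ 2 - 5 / 2 ≤ phi t (ini p e) 3 ^ 2 + phi t (ini p e) 4 ^ 2 := by
    filter_upwards [eventually_ge_atTop 0] with t ht
    have h1 := (h.main_bound hp t ht).2.2
    unfold hh at h1
    have h2 : 0 ≤ (5 / 4) / √(ss (phi t (ini p e))) := by positivity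
    linarith
  have := ge_of_tendsto hl hge
  linarith

end asym

end Pool.Agent.H399R3.Shape
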