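import Pool.Agent.H399R3.Shape6
import Pool.Agent.H399R3.NBUniq

set_option autoImplicit false

namespace Pool.Agent.H399R3.Shape

open Set Filter Topology Metric

abbrev V3 := EuclideanSpace ℝ (Fin 3)

/-- the symmetric configuration of three unit masses -/
noncomputable def conf (u v w : ℝ) : Fin 3 → V3 :=
  ![!₂[u, v, w / 3], !₂[0, 0, -(2 * w / 3)], !₂[-u, -v, w / 3]]

noncomputable def confL : (Fin 3 → ℝ) →ₗ[ℝ] (Fin 3 → V3) where
  toFun x := conf (x 0) (x 1) (x 2)
  map_add' x y := by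
    funext i
    ext k
    fin_cases i <;> fin_cases k <;> simp [conf] <;> ring
  map_smul' c x := by
    funext i
    ext k
    fin_cases i <;> fin_cases k <;> simp [conf] <;> ring

noncomputable def confC : (Fin 3 → ℝ) →L[ℝ] (Fin 3 → V3) := LinearMap.toContinuousLinearMap confL

lemma confC_apply (x : Fin 3 → ℝ) : confC x = conf (x 0) (x 1) (x 2) := rfl

lemma conf_hasDerivAt {f g k : ℝ → ℝ} {f' g' k' t : ℝ} (hf : HasDerivAt f f' t)
    (hg : HasDerivAt g g' t) (hk : HasDerivAt k k' t) :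
    HasDerivAt (fun t => conf (f t) (g t) (k t)) (conf f' g' k') t := by
  have h1 : HasDerivAt (fun t => (![f t, g t, k t] : Fin 3 → ℝ)) ![f', g', k'] t := by
    rw [hasDerivAt_pi]
    intro i
    fin_cases i
    · exact hf
    · exact hg
    · exact hk
  exact confC.hasFDerivAt.comp_hasDerivAt t h1

lemma conf_smul (c u v w : ℝ) : c • conf u v w = conf (c * u) (c * v) (c * w) := by
  have := confL.map_smul c ![u, v, w]
  exact this.symm

lemma conf_tendsto {ι : Type*} {l : Filter ι} {f g k : ι → ℝ} {a b c : ℝ} (hf : Tendsto f l (𝓝 a))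
    (hg : Tendsto g l (𝓝 b)) (hk : Tendsto k l (𝓝 c)) :
    Tendsto (fun t => conf (f t) (g t) (k t)) l (𝓝 (conf a b c)) := by
  have h1 : Tendsto (fun t => (![f t, g t, k t] : Fin 3 → ℝ)) l (𝓝 ![a, b, c]) := by
    rw [tendsto_pi_nhds]
    intro i
    fin_cases i
    · exact hf
    · exact hg
    · exact hk
  exact (confC.continuous.tendsto _).comp h1

lemma conf_inj {u v w u' v' w' : ℝ} (h : conf u v w = conf u' v' w') : u = u' ∧ v = v' ∧ w = w' := by
  have h0 := congrFun h 0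
  have e0 := congrArg (fun z : V3 => z 0) h0
  have e1 := congrArg (fun z : V3 => z 1) h0
  have e2 := congrArg (fun z : V3 => z 2) h0
  simp [conf] at e0 e1 e2
  exact ⟨e0, e1, by linarith⟩

lemma conf_ne {u v w : ℝ} (h : 0 < u ^ 2 + v ^ 2) : ∀ i j, i ≠ j → conf u v w i ≠ conf u v w j := by
  have key : ∀ i j, i ≠ j → conf u v w i = conf u v w j → u = 0 ∧ v = 0 := by
    intro i j hij he
    have e0 := congrArg (fun z : V3 => z 0) he
    have e1 := congrArg (fun z : V3 => z 1) he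
    fin_cases i <;> fin_cases j <;> simp [conf] at e0 e1 hij ⊢ <;> constructor <;> linarith
  intro i j hij he
  obtain ⟨h1, h2⟩ := key i j hij he
  rw [h1, h2] at h
  norm_num at h

lemma norm_vec (a b c : ℝ) : ‖(!₂[a, b, c] : V3)‖ = √(a ^ 2 + b ^ 2 + c ^ 2) := by
  rw [EuclideanSpace.norm_eq]
  simp [Fin.sum_univ_three, sq_abs]

/-- the acceleration of the symmetric configuration -/
lemma acc_conf {u v w : ℝ} (h : 0 < u ^ 2 + v ^ 2) :
    acc (fun _ : Fin 3 => (1:ℝ)) (conf u v w) =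
      conf (-(((1 / 4) / √(u ^ 2 + v ^ 2) ^ 3 + 1 / √(u ^ 2 + v ^ 2 + w ^ 2) ^ 3) * u))
        (-(((1 / 4) / √(u ^ 2 + v ^ 2) ^ 3 + 1 / √(u ^ 2 + v ^ 2 + w ^ 2) ^ 3) * v))
        (-(3 / √(u ^ 2 + v ^ 2 + w ^ 2) ^ 3 * w)) := by
  set r := √(u ^ 2 + v ^ 2) with hr
  set ρ := √(u ^ 2 + v ^ 2 + w ^ 2) with hρ
  have hr0 : 0 < r := Real.sqrt_pos.2 h
  have hρ0 : 0 < ρ := Real.sqrt_pos.2 (by positivity)
  have d10 : conf u v w 1 - conf u v w 0 = !₂[-u, -v, -w] := by
    ext k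
    fin_cases k <;> simp [conf] <;> ring
  have d20 : conf u v w 2 - conf u v w 0 = !₂[-(2 * u), -(2 * v), 0] := by
    ext k
    fin_cases k <;> simp [conf] <;> ring
  have d01 : conf u v w 0 - conf u v w 1 = !₂[u, v, w] := by
    ext k
    fin_cases k <;> simp [conf] <;> ring
  have d21 : conf u v w 2 - conf u v w 1 = !₂[-u, -v, w] := by
    ext k
    fin_cases k <;> simp [conf] <;> ring
  have d02 : conf u v w 0 - conf u v w 2 = !₂[2 * u, 2 * v, 0] := by
    ext k
    fin_cases k <;> simp [conf] <;> ring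
  have d12 : conf u v w 1 - conf u v w 2 = !₂[u, v, -w] := by
    ext k
    fin_cases k <;> simp [conf] <;> ring
  have n1 : ‖(!₂[-u, -v, -w] : V3)‖ = ρ := by
    rw [norm_vec, hρ]; congr 1; ring
  have n2 : ‖(!₂[-(2 * u), -(2 * v), 0] : V3)‖ = 2 * r := by
    rw [norm_vec, hr]
    have : (-(2 * u)) ^ 2 + (-(2 * v)) ^ 2 + (0:ℝ) ^ 2 = 2 ^ 2 * (u ^ 2 + v ^ 2) := by ring
    rw [this, Real.sqrt_mul (by norm_num), Real.sqrt_sq (by norm_num)]
  have n3 : ‖(!₂[u, v, w] : V3)‖ = ρ := by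
    rw [norm_vec, hρ]
  have n4 : ‖(!₂[-u, -v, w] : V3)‖ = ρ := by
    rw [norm_vec, hρ]; congr 1; ring
  have n5 : ‖(!₂[2 * u, 2 * v, 0] : V3)‖ = 2 * r := by
    rw [norm_vec, hr]
    have : (2 * u) ^ 2 + (2 * v) ^ 2 + (0:ℝ) ^ 2 = 2 ^ 2 * (u ^ 2 + v ^ 2) := by ring
    rw [this, Real.sqrt_mul (by norm_num), Real.sqrt_sq (by norm_num)]
  have n6 : ‖(!₂[u, v, -w] : V3)‖ = ρ := by
    rw [norm_vec, hρ]; congr 1; ring
  have s0 : (Finset.univ.erase (0 : Fin 3)) = {1, 2} := by decide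
  have s1 : (Finset.univ.erase (1 : Fin 3)) = {0, 2} := by decide
  have s2 : (Finset.univ.erase (2 : Fin 3)) = {0, 1} := by decide
  funext i
  unfold acc
  fin_cases i
  · simp only [Fin.zero_eta, s0]
    rw [Finset.sum_pair (by decide), d10, d20, n1, n2]
    ext k
    fin_cases k <;> simp [conf] <;> field_simp <;> ring
  · simp only [Fin.mk_one, s1]
    rw [Finset.sum_pair (by decide), d01, d21, n3, n4]
    ext k
    fin_cases k <;> simp [conf] <;> field_simp <;> ring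
  · simp only [Fin.reduceFinMk, s2]
    rw [Finset.sum_pair (by decide), d02, d12, n5, n6]
    ext k
    fin_cases k <;> simp [conf] <;> field_simp <;> ring

/-- the three-body motion -/
noncomputable def gam (p e t : ℝ) : Fin 3 → V3 :=
  conf (phi t (ini p e) 0) (phi t (ini p e) 1) (phi t (ini p e) 2)
noncomputable def gam' (p e t : ℝ) : Fin 3 → V3 :=
  conf (phi t (ini p e) 3) (phi t (ini p e) 4) (phi t (ini p e) 5)

variable {p e : ℝ}

lemma gam_deriv (t : ℝ) : HasDerivAt (gam p e) (gam' p e t) t :=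
  conf_hasDerivAt ((sol p e).d0 t) ((sol p e).d1 t) ((sol p e).d2 t)

lemma gam_ne (hp : 5 / 2 < p ^ 2) (t : ℝ) : ∀ i j, i ≠ j → gam p e t i ≠ gam p e t j := by
  apply conf_ne
  have := ss_ge' (e := e) hp t
  unfold ss at this
  linarith

lemma gam'_deriv (hp : 5 / 2 < p ^ 2) (t : ℝ) :
    HasDerivAt (gam' p e) (acc (fun _ : Fin 3 => (1:ℝ)) (gam p e t)) t := by
  have hs := ss_ge' (e := e) hp t
  have h1 := conf_hasDerivAt ((sol p e).d3 t) ((sol p e).d4 t) ((sol p e).d5 t)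
  refine h1.congr_deriv ?_
  unfold gam
  rw [acc_conf (by unfold ss at hs; linarith), Af_of_ge hs, Bf_of_ge hs]
  rfl

lemma gam_zero : gam p e 0 = conf 1 0 0 := by
  unfold gam
  rw [(sol p e).i0, (sol p e).i1, (sol p e).i2]

lemma gam'_zero : gam' p e 0 = conf 0 p e := by
  unfold gam'
  rw [(sol p e).i3, (sol p e).i4, (sol p e).i5]

/-- asymptotic shapes -/
theorem gam_asym (hp : 5 / 2 < p ^ 2) : ∃ a b c : ℝ, 0 < a ^ 2 + b ^ 2 ∧
    Tendsto (WW p e) atTop (𝓝 c) ∧
    Tendsto (fun t : ℝ => t⁻¹ • gam p e t) atTop (𝓝 (conf a b c)) ∧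
    Tendsto (fun t : ℝ => |t|⁻¹ • gam p e t) atBot (𝓝 (conf a (-b) (-c))) ∧
    Tendsto (fun t : ℝ => t⁻¹ • gam p (-e) t) atTop (𝓝 (conf a b (-c))) ∧
    Tendsto (fun t : ℝ => |t|⁻¹ • gam p (-e) t) atBot (𝓝 (conf a (-b) c)) := by
  obtain ⟨a, b, c, h1, h2, h3, h4, h5⟩ := asym (e := e) hp
  refine ⟨a, b, c, h1, h2, ?_, ?_, ?_, ?_⟩
  · have := conf_tendsto h3 h4 h5
    refine this.congr (fun t => ?_)
    unfold gam
    rw [conf_smul]
  · have h3' := h3.comp tendsto_neg_atBot_atTop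
    have h4' := (h4.comp tendsto_neg_atBot_atTop).neg
    have h5' := (h5.comp tendsto_neg_atBot_atTop).neg
    have := conf_tendsto h3' h4' h5'
    refine this.congr' ?_
    filter_upwards [eventually_le_atBot 0] with t ht
    unfold gam
    rw [conf_smul, abs_of_nonpos ht]
    have hr := phi_neg p e (-t)
    rw [neg_neg] at hr
    rw [hr]
    simp
  · have := conf_tendsto h3 h4 h5.neg
    refine this.congr (fun t => ?_)
    unfold gam
    rw [conf_smul, phi_refl]
    simp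
  · have h3' := h3.comp tendsto_neg_atBot_atTop
    have h4' := (h4.comp tendsto_neg_atBot_atTop).neg
    have h5' := (h5.comp tendsto_neg_atBot_atTop)
    have := conf_tendsto h3' h4' h5'
    refine this.congr' ?_
    filter_upwards [eventually_le_atBot 0] with t ht
    unfold gam
    rw [conf_smul, abs_of_nonpos ht, phi_refl]
    have hr := phi_neg p e (-t)
    rw [neg_neg] at hr
    rw [hr]
    simp

end Pool.Agent.H399R3.Shape
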