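import Pool.Agent.H399R3.Shape7

set_option autoImplicit false

namespace Pool.Agent.H399R3.Shape

open Set Filter Topology Metric

noncomputable def eta0 : ℝ := 3 / 50 / (1 + 2 * T1)
noncomputable def pb : ℝ := √(5 / 2 + eta0 / 2)
noncomputable def e0 : ℝ := min 1 (min (√(3 * eta0 / 2)) (√(27 / 1000) / T1))

lemma eta0_pos : 0 < eta0 := by
  have := T1_pos
  unfold eta0
  positivity

lemma eta0_le : eta0 ≤ 3 / 50 := by
  have := T1_pos
  unfold eta0
  apply div_le_self (by norm_num) (by linarith)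

lemma pb_sq : pb ^ 2 = 5 / 2 + eta0 / 2 := by
  have := eta0_pos
  unfold pb
  rw [Real.sq_sqrt (by positivity)]

lemma pb_pos : 0 < pb := by
  have := eta0_pos
  unfold pb
  positivity

lemma pb_le : pb ≤ 3 := by
  have h1 := eta0_le
  unfold pb
  rw [Real.sqrt_le_left (by norm_num)]
  linarith

lemma e0_pos : 0 < e0 := by
  have := eta0_pos
  have := T1_pos
  unfold e0
  positivity

lemma key_exists {e : ℝ} (he : 0 < e) (hee : e ≤ e0) :
    ∃ p ∈ Icc pb 3, Tendsto (WW p e) atTop (𝓝 0) := by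
  have h1 := eta0_pos
  have hT := T1_pos
  have hpb := pb_sq
  have hpb2 : 5 / 2 < pb ^ 2 := by linarith
  have he1 : e ≤ 1 := hee.trans (min_le_left _ _)
  have he2 : e ≤ √(3 * eta0 / 2) := hee.trans ((min_le_right _ _).trans (min_le_left _ _))
  have he3 : e ≤ √(27 / 1000) / T1 := hee.trans ((min_le_right _ _).trans (min_le_right _ _))
  have hlow := (sol pb e).low hpb2 he (by
    have h2 : e ^ 2 ≤ 3 * eta0 / 2 := by
      have := Real.sq_sqrt (show 0 ≤ 3 * eta0 / 2 by positivity)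
      rw [← this]
      gcongr
    have h3 : pb ^ 2 - 5 / 2 + e ^ 2 / 3 ≤ eta0 := by linarith
    calc (pb ^ 2 - 5 / 2 + e ^ 2 / 3) * (1 + 2 * T1) ≤ eta0 * (1 + 2 * T1) :=
          mul_le_mul_of_nonneg_right h3 (by linarith)
      _ = 3 / 50 := by
          unfold eta0
          field_simp) (by
    rw [le_div_iff₀ hT] at he3
    have := Real.sq_sqrt (show (0:ℝ) ≤ 27 / 1000 by norm_num)
    rw [← this]
    gcongr)
  obtain ⟨p, hp, hn, hd⟩ := shoot he he1 pb_pos pb_le hpb2 hlow
  refine ⟨p, hp, ?_⟩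
  have hp2 : 5 / 2 < p ^ 2 := by
    have h4 := pb_pos
    have : pb ^ 2 ≤ p ^ 2 := by
      have := hp.1
      gcongr
    linarith
  have ha : 0 < p ^ 2 - 5 / 2 := by linarith
  have hdel : Tendsto (fun t => del p e t) atTop (𝓝 0) := by
    unfold del
    apply Tendsto.div_atTop tendsto_const_nhds
    apply Real.tendsto_sqrt_atTop.comp
    apply tendsto_atTop_add_const_left
    exact (tendsto_pow_atTop (by norm_num)).const_mul_atTop ha
  refine tendsto_of_tendsto_of_tendsto_of_le_of_le' tendsto_const_nhds hdel ?_ ?_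
  · filter_upwards [eventually_ge_atTop 0] with t ht using hn t ht
  · filter_upwards [eventually_ge_atTop 0] with t ht using hd t ht

/-- a sequence of nonplanar motions with vanishing vertical asymptotic velocity converging to a
planar one -/
theorem exists_seq : ∃ (ps : ℝ) (p e : ℕ → ℝ), ps ∈ Icc pb 3 ∧ (∀ n, p n ∈ Icc pb 3) ∧
    (∀ n, 0 < e n) ∧ Tendsto e atTop (𝓝 0) ∧ Tendsto p atTop (𝓝 ps) ∧
    ∀ n, Tendsto (WW (p n) (e n)) atTop (𝓝 0) := by
  have h0 := e0_pos
  have hpos : ∀ n : ℕ, 0 < e0 / ((n:ℝ) + 1) := fun n => by positivity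
  have hle : ∀ n : ℕ, e0 / ((n:ℝ) + 1) ≤ e0 := fun n => by
    apply div_le_self h0.le
    have : (0:ℝ) ≤ n := n.cast_nonneg
    linarith
  choose q hq1 hq2 using fun n : ℕ => key_exists (hpos n) (hle n)
  obtain ⟨ps, hps, f, hf, hlim⟩ := (isCompact_Icc (a := pb) (b := 3)).tendsto_subseq hq1
  refine ⟨ps, q ∘ f, fun n => e0 / ((f n : ℝ) + 1), hps, fun n => hq1 _, fun n => hpos _, ?_,
    hlim, fun n => hq2 _⟩
  have h1 : Tendsto (fun n : ℕ => e0 / ((n:ℝ) + 1)) atTop (𝓝 0) := by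
    apply Tendsto.div_atTop tendsto_const_nhds
    exact tendsto_atTop_add_const_right _ _ tendsto_natCast_atTop_atTop
  exact h1.comp hf.tendsto_atTop

end Pool.Agent.H399R3.Shape
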